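import Mathlib
set_option autoImplicit false
set_option linter.unusedSectionVars false

namespace Pool.Agent.Results.MP_959d67_pr.NotMonotone

open scoped ENNReal NNReal
open Finset

variable {V : Type} [Fintype V] [DecidableEq V]

/-- A configuration: the open edges and the frozen vertices. -/
abbrev Conf (V : Type) := Finset (Sym2 V) × Finset V

open Classical in
/-- the edges of `G` that can open: closed edges with two warm endpoints -/
noncomputable def openable (G : SimpleGraph V) (s : Conf V) : Finset (Sym2 V) :=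
  univ.filter fun e => e ∈ G.edgeSet ∧ e ∉ s.1 ∧ ∀ v ∈ e, v ∉ s.2

open Classical in
/-- the cluster (component of the graph of open edges) of the vertex `v` -/
noncomputable def cluster (s : Conf V) (v : V) : Finset V :=
  univ.filter fun u => (SimpleGraph.fromEdgeSet (s.1 : Set (Sym2 V))).Reachable v u

/-- the warm clusters -/
noncomputable def warm (s : Conf V) : Finset (Finset V) :=
  (univ.image (cluster s)).filter fun C => Disjoint C s.2

/-- the transition rate from `s` to `t`: an openable edge opens at rate `1`, a warm cluster freezes at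
rate `α` -/
noncomputable def rate (G : SimpleGraph V) (α : ℝ≥0) (s t : Conf V) : ℝ≥0∞ :=
  (∑ e ∈ openable G s, if t = (insert e s.1, s.2) then 1 else 0) +
    ∑ C ∈ warm s, if t = (s.1, s.2 ∪ C) then (α : ℝ≥0∞) else 0

lemma rate_sum (G : SimpleGraph V) (α : ℝ≥0) (s : Conf V) :
    ∑' t, rate G α s t = (#(openable G s) : ℝ≥0∞) + #(warm s) * α := by
  rw [tsum_fintype]
  unfold rate
  rw [sum_add_distrib, sum_comm, sum_comm (s := univ) (t := warm s)]
  simp

lemma rate_ne_top (G : SimpleGraph V) (α : ℝ≥0) (s : Conf V) : ∑' t, rate G α s t ≠ ∞ := by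
  rw [rate_sum]
  finiteness

/-- one jump of the chain (`s` is absorbing if its total rate is `0`) -/
noncomputable def step (G : SimpleGraph V) (α : ℝ≥0) (s : Conf V) : PMF (Conf V) :=
  if h : ∑' t, rate G α s t = 0 then PMF.pure s
  else PMF.normalize (rate G α s) h (rate_ne_top G α s)

/-- The law of the final set of open edges of the rate `α` process with constant freezing: the chain
starts with all edges closed and all vertices warm and is absorbed after at most
`|V| + |E|` jumps. -/
noncomputable def law (G : SimpleGraph V) (α : ℝ≥0) : PMF (Finset (Sym2 V)) :=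
  ((fun p : PMF (Conf V) => p.bind (step G α))^[Fintype.card V + Fintype.card (Sym2 V)]
    (PMF.pure (∅, ∅))).map Prod.fst

/-! ### expectations -/

/-- expectation of a function -/
noncomputable def Ex {S : Type} [Fintype S] (p : PMF S) (f : S → ℝ) : ℝ := ∑ t, (p t).toReal * f t

lemma Ex_pure {S : Type} [Fintype S] [DecidableEq S] (s : S) (f : S → ℝ) :
    Ex (PMF.pure s) f = f s := by
  unfold Ex
  rw [sum_eq_single s]
  · simp
  · intro t _ ht
    rw [PMF.pure_apply_of_ne _ _ ht]
    simp
  · simp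

lemma Ex_bind {S T : Type} [Fintype S] [Fintype T] (p : PMF S) (q : S → PMF T) (f : T → ℝ) :
    Ex (p.bind q) f = Ex p fun s => Ex (q s) f := by
  unfold Ex
  simp_rw [PMF.bind_apply, tsum_fintype, mul_sum]
  rw [sum_comm]
  refine sum_congr rfl fun t _ => ?_
  rw [ENNReal.toReal_sum (fun s _ => ENNReal.mul_ne_top (p.apply_ne_top _) ((q s).apply_ne_top _)),
    sum_mul]
  refine sum_congr rfl fun s _ => ?_
  rw [ENNReal.toReal_mul]
  ring

lemma Ex_sum_one {S : Type} [Fintype S] (p : PMF S) : ∑ t, (p t).toReal = 1 := by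
  rw [← ENNReal.toReal_sum (fun s _ => p.apply_ne_top _), ← tsum_fintype (L := .unconditional _), p.tsum_coe]
  simp

lemma Ex_mono {S : Type} [Fintype S] (p : PMF S) {f g : S → ℝ} (h : ∀ s, f s ≤ g s) :
    Ex p f ≤ Ex p g :=
  sum_le_sum fun s _ => mul_le_mul_of_nonneg_left (h s) ENNReal.toReal_nonneg

/-- total rate -/
noncomputable def R (G : SimpleGraph V) (α : ℝ≥0) (s : Conf V) : ℝ := #(openable G s) + #(warm s) * α

/-- sum of the values over the moves -/
noncomputable def Mv (G : SimpleGraph V) (α : ℝ≥0) (f : Conf V → ℝ) (s : Conf V) : ℝ :=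
  (∑ e ∈ openable G s, f (insert e s.1, s.2)) + α * ∑ C ∈ warm s, f (s.1, s.2 ∪ C)

lemma R_eq (G : SimpleGraph V) (α : ℝ≥0) (s : Conf V) :
    (∑' t, rate G α s t).toReal = R G α s := by
  rw [rate_sum]
  unfold R
  rw [ENNReal.toReal_add (by finiteness) (by finiteness)]
  simp

lemma R_zero_iff (G : SimpleGraph V) (α : ℝ≥0) (s : Conf V) :
    ∑' t, rate G α s t = 0 ↔ R G α s = 0 := by
  rw [← R_eq, ENNReal.toReal_eq_zero_iff]
  constructor
  · intro h; exact Or.inl h
  · rintro (h | h)
    · exact h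
    · exact absurd h (rate_ne_top G α s)

lemma Ex_step (G : SimpleGraph V) (α : ℝ≥0) (s : Conf V) (f : Conf V → ℝ) :
    Ex (step G α s) f = if R G α s = 0 then f s else Mv G α f s / R G α s := by
  unfold step
  by_cases h : ∑' t, rate G α s t = 0
  · rw [dif_pos h, if_pos ((R_zero_iff G α s).1 h), Ex_pure]
  · rw [dif_neg h, if_neg (fun h' => h ((R_zero_iff G α s).2 h'))]
    unfold Ex
    simp_rw [PMF.normalize_apply, ENNReal.toReal_mul, ENNReal.toReal_inv, R_eq]
    have : ∀ t, (rate G α s t).toReal = (∑ e ∈ openable G s, if t = (insert e s.1, s.2) then (1 : ℝ) else 0) +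
        ∑ C ∈ warm s, if t = (s.1, s.2 ∪ C) then (α : ℝ) else 0 := by
      intro t
      unfold rate
      rw [ENNReal.toReal_add, ENNReal.toReal_sum, ENNReal.toReal_sum]
      · congr 1
        · refine sum_congr rfl fun e _ => ?_
          split_ifs <;> simp
        · refine sum_congr rfl fun e _ => ?_
          split_ifs <;> simp
      · intro a _; split_ifs <;> simp
      · intro a _; split_ifs <;> simp
      · refine (ENNReal.sum_lt_top.2 fun a _ => ?_).ne
        split_ifs <;> simp
      · refine (ENNReal.sum_lt_top.2 fun a _ => ?_).ne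
        split_ifs <;> simp
    simp_rw [this]
    have h2 : ∀ t, ((∑ e ∈ openable G s, if t = (insert e s.1, s.2) then (1 : ℝ) else 0) +
        ∑ C ∈ warm s, if t = (s.1, s.2 ∪ C) then (α : ℝ) else 0) * (R G α s)⁻¹ * f t =
        (R G α s)⁻¹ * ((∑ e ∈ openable G s, if t = (insert e s.1, s.2) then f t else 0) +
        α * ∑ C ∈ warm s, if t = (s.1, s.2 ∪ C) then f t else 0) := by
      intro t
      rw [mul_sum (s := warm s)]
      simp_rw [add_mul, mul_add, sum_mul, mul_sum]
      congr 1
      · refine sum_congr rfl fun e _ => ?_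
        split_ifs <;> ring
      · refine sum_congr rfl fun e _ => ?_
        split_ifs <;> ring
    simp_rw [h2, ← mul_sum, sum_add_distrib, ← mul_sum]
    rw [sum_comm, sum_comm (s := univ) (t := warm s)]
    simp [Mv]
    field_simp

/-- the chain after `n` jumps -/
noncomputable def it (G : SimpleGraph V) (α : ℝ≥0) (n : ℕ) (s : Conf V) : PMF (Conf V) :=
  (fun p : PMF (Conf V) => p.bind (step G α))^[n] (PMF.pure s)

lemma iter_bind (G : SimpleGraph V) (α : ℝ≥0) (n : ℕ) (p : PMF (Conf V)) :
    (fun p : PMF (Conf V) => p.bind (step G α))^[n] p = p.bind (it G α n) := by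
  induction n generalizing p with
  | zero => exact (PMF.bind_pure p).symm
  | succ n ih =>
    rw [Function.iterate_succ_apply, ih, PMF.bind_bind]
    congr 1
    funext s
    unfold it
    rw [Function.iterate_succ_apply, PMF.pure_bind, ih]
    rfl

lemma it_succ (G : SimpleGraph V) (α : ℝ≥0) (n : ℕ) (s : Conf V) :
    it G α (n + 1) s = (step G α s).bind (it G α n) := by
  unfold it
  rw [Function.iterate_succ_apply, PMF.pure_bind, iter_bind]
  rfl

/-- number of moves that are still possible at most -/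
def rank (s : Conf V) : ℕ := #(s.1ᶜ) + #(s.2ᶜ)

lemma cluster_nonempty (s : Conf V) (v : V) : v ∈ cluster s v := by
  unfold cluster
  simp

lemma rank_open (G : SimpleGraph V) (s : Conf V) (e : Sym2 V) (he : e ∈ openable G s) :
    rank ((insert e s.1, s.2) : Conf V) < rank s := by
  unfold rank
  have h1 : e ∉ s.1 := by
    unfold openable at he
    simp at he
    exact he.2.1
  have : #((insert e s.1)ᶜ) < #(s.1ᶜ) := by
    apply card_lt_card
    rw [compl_ssubset_compl]
    exact ssubset_insert h1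
  simp only
  omega

lemma rank_freeze (s : Conf V) (C : Finset V) (hC : C ∈ warm s) :
    rank ((s.1, s.2 ∪ C) : Conf V) < rank s := by
  unfold rank
  unfold warm at hC
  rw [mem_filter, mem_image] at hC
  obtain ⟨⟨v, _, hv⟩, hd⟩ := hC
  have hvC : v ∈ C := hv ▸ cluster_nonempty s v
  have hv2 : v ∉ s.2 := fun h => (disjoint_left.1 hd hvC) h
  have : #((s.2 ∪ C)ᶜ) < #(s.2ᶜ) := by
    apply card_lt_card
    rw [compl_ssubset_compl]
    refine ⟨subset_union_left, fun h => hv2 (h (mem_union_right _ hvC))⟩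
  simp only
  omega

/-- Comparison principle. -/
lemma compare (G : SimpleGraph V) (α : ℝ≥0) (Inv : Conf V → Prop) (f F : Conf V → ℝ)
    (hI1 : ∀ s, Inv s → ∀ e ∈ openable G s, Inv (insert e s.1, s.2))
    (hI2 : ∀ s, Inv s → ∀ C ∈ warm s, Inv (s.1, s.2 ∪ C))
    (hf : ∀ s, Inv s → R G α s = 0 → f s ≤ F s)
    (hF : ∀ s, Inv s → R G α s ≠ 0 → Mv G α F s ≤ R G α s * F s) :
    ∀ n s, Inv s → rank s ≤ n → Ex (it G α n s) f ≤ F s := by
  intro n
  induction n with
  | zero =>
    intro s hs hr
    have h0 : R G α s = 0 := by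
      unfold R
      have h1 : openable G s = ∅ := by
        by_contra h
        obtain ⟨e, he⟩ := nonempty_iff_ne_empty.2 h
        have := rank_open G s e he
        omega
      have h2 : warm s = ∅ := by
        by_contra h
        obtain ⟨e, he⟩ := nonempty_iff_ne_empty.2 h
        have := rank_freeze s e he
        omega
      simp [h1, h2]
    unfold it
    simp only [Function.iterate_zero, id]
    rw [Ex_pure]
    exact hf s hs h0
  | succ n ih =>
    intro s hs hr
    rw [it_succ, Ex_bind, Ex_step]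
    split_ifs with h
    · have hf' := hf s hs h
      refine le_trans ?_ hf'
      -- an absorbing state stays
      have : ∀ m, it G α m s = PMF.pure s := by
        intro m
        induction m with
        | zero => rfl
        | succ m ihm =>
          rw [it_succ]
          have : step G α s = PMF.pure s := by
            unfold step
            rw [dif_pos ((R_zero_iff G α s).2 h)]
          rw [this, PMF.pure_bind, ihm]
      rw [this, Ex_pure]
    · have hR : 0 < R G α s := lt_of_le_of_ne (by unfold R; positivity) (Ne.symm h)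
      rw [div_le_iff₀ hR, mul_comm]
      refine le_trans ?_ (hF s hs h)
      unfold Mv
      refine add_le_add (sum_le_sum fun e he => ?_) (mul_le_mul_of_nonneg_left (sum_le_sum fun C hC => ?_) α.2)
      · exact ih _ (hI1 s hs e he) (by have := rank_open G s e he; omega)
      · exact ih _ (hI2 s hs C hC) (by have := rank_freeze s C hC; omega)


/-! ### invariants -/

/-- invariants of the reachable states -/
def Inv (G : SimpleGraph V) (s : Conf V) : Prop :=
  (∀ e ∈ s.1, e ∈ G.edgeSet) ∧ ∀ u v, s(u, v) ∈ s.1 → (u ∈ s.2 ↔ v ∈ s.2)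

lemma mem_openable {G : SimpleGraph V} {s : Conf V} {e : Sym2 V} :
    e ∈ openable G s ↔ e ∈ G.edgeSet ∧ e ∉ s.1 ∧ ∀ v ∈ e, v ∉ s.2 := by
  unfold openable
  simp

lemma inv_open {G : SimpleGraph V} {s : Conf V} (hs : Inv G s) {e : Sym2 V} (he : e ∈ openable G s) :
    Inv G (insert e s.1, s.2) := by
  rw [mem_openable] at he
  refine ⟨?_, ?_⟩
  · intro x hx
    rcases mem_insert.1 hx with rfl | hx
    · exact he.1
    · exact hs.1 x hx
  · intro u v huv
    rcases mem_insert.1 huv with h | h
    · have h1 := he.2.2 u (by rw [← h]; exact Sym2.mem_mk_left u v)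
      have h2 := he.2.2 v (by rw [← h]; exact Sym2.mem_mk_right u v)
      simp only
      tauto
    · exact hs.2 u v h

lemma reach_closed (s : Set (Sym2 V)) (P : V → Prop) (hP : ∀ x y, P x → s(x, y) ∈ s → P y) {x y : V}
    (h : (SimpleGraph.fromEdgeSet s).Reachable x y) (hx : P x) : P y := by
  obtain ⟨w⟩ := h
  induction w with
  | nil => exact hx
  | cons hadj _ ih =>
    rw [SimpleGraph.fromEdgeSet_adj] at hadj
    exact ih (hP _ _ hx hadj.1)

lemma cluster_closed {s : Conf V} {w u v : V} (hu : u ∈ cluster s w) (h : s(u, v) ∈ s.1) :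
    v ∈ cluster s w := by
  unfold cluster at hu ⊢
  simp only [mem_filter, mem_univ, true_and] at hu ⊢
  by_cases huv : u = v
  · exact huv ▸ hu
  · refine hu.trans (SimpleGraph.Adj.reachable ?_)
    rw [SimpleGraph.fromEdgeSet_adj]
    exact ⟨h, huv⟩

lemma cluster_eq {s : Conf V} {w u : V} (hu : u ∈ cluster s w) : cluster s w = cluster s u := by
  unfold cluster at hu ⊢
  simp only [mem_filter, mem_univ, true_and] at hu
  ext x
  simp only [mem_filter, mem_univ, true_and]
  exact ⟨fun h => hu.symm.trans h, fun h => hu.trans h⟩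

lemma mem_warm {s : Conf V} {C : Finset V} :
    C ∈ warm s ↔ (∃ w, cluster s w = C) ∧ Disjoint C s.2 := by
  unfold warm
  simp

lemma inv_freeze {G : SimpleGraph V} {s : Conf V} (hs : Inv G s) {C : Finset V} (hC : C ∈ warm s) :
    Inv G (s.1, s.2 ∪ C) := by
  refine ⟨hs.1, ?_⟩
  intro u v huv
  obtain ⟨⟨w, rfl⟩, _⟩ := mem_warm.1 hC
  have h1 := hs.2 u v huv
  have h2 : u ∈ cluster s w ↔ v ∈ cluster s w :=
    ⟨fun h => cluster_closed h huv, fun h => cluster_closed h (Sym2.eq_swap ▸ huv)⟩
  simp only [mem_union]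
  tauto

/-- the cluster of a warm vertex is warm -/
lemma warm_cluster {G : SimpleGraph V} {s : Conf V} (hs : Inv G s) {w : V} (hw : w ∉ s.2) :
    cluster s w ∈ warm s := by
  rw [mem_warm]
  refine ⟨⟨w, rfl⟩, ?_⟩
  rw [disjoint_left]
  intro u hu
  unfold cluster at hu
  simp only [mem_filter, mem_univ, true_and] at hu
  exact reach_closed _ (fun x => x ∉ s.2) (fun x y hx hxy => by
    have := hs.2 x y (by simpa using hxy); tauto) hu hw

/-! ### the windmill graph -/

/-- The windmill graph: a hub `none`, joined to all vertices of the disjoint complete graphs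
`{some (i, a) : a}`, `i : ι`. -/
def windmill (ι κ : Type) : SimpleGraph (Option (ι × κ)) :=
  SimpleGraph.fromRel fun x y => x = none ∨ ∃ i a b, x = some (i, a) ∧ y = some (i, b)

variable {ι κ : Type} [Fintype ι] [DecidableEq ι] [Fintype κ] [DecidableEq κ]

open Classical in
/-- internal edges of blob `i` -/
noncomputable def inn (i : ι) : Finset (Sym2 (Option (ι × κ))) :=
  univ.filter fun e => ∃ a b, a ≠ b ∧ e = s(some (i, a), some (i, b))

lemma mem_inn {i : ι} {e : Sym2 (Option (ι × κ))} :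
    e ∈ inn i ↔ ∃ a b, a ≠ b ∧ e = s(some (i, a), some (i, b)) := by
  unfold inn
  simp

lemma mk_mem_inn {i j : ι} {a : κ} {y : Option (ι × κ)} :
    s(some (j, a), y) ∈ inn i ↔ j = i ∧ ∃ b, a ≠ b ∧ y = some (i, b) := by
  rw [mem_inn]
  constructor
  · rintro ⟨c, d, hcd, h⟩
    rw [Sym2.eq_iff] at h
    rcases h with ⟨h1, h2⟩ | ⟨h1, h2⟩
    · simp only [Option.some.injEq, Prod.mk.injEq] at h1
      exact ⟨h1.1, d, by rw [h1.2]; exact hcd, h2⟩
    · simp only [Option.some.injEq, Prod.mk.injEq] at h1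
      exact ⟨h1.1, c, by rw [h1.2]; exact hcd.symm, h2⟩
  · rintro ⟨rfl, b, hab, rfl⟩
    exact ⟨a, b, hab, rfl⟩

lemma none_not_inn {i : ι} {y : Option (ι × κ)} : s(none, y) ∉ inn i := by
  rw [mem_inn]
  rintro ⟨c, d, hcd, h⟩
  rw [Sym2.eq_iff] at h
  simp at h

lemma inn_disj {i j : ι} {e : Sym2 (Option (ι × κ))} (h1 : e ∈ inn i) (h2 : e ∈ inn j) : i = j := by
  obtain ⟨a, b, hab, rfl⟩ := mem_inn.1 h1
  exact (mk_mem_inn.1 h2).1

lemma edge_cases {e : Sym2 (Option (ι × κ))} (he : e ∈ (windmill ι κ).edgeSet) :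
    (∃ i a, e = s(none, some (i, a))) ∨ ∃ i, e ∈ inn i := by
  induction e with
  | _ x y =>
    rw [SimpleGraph.mem_edgeSet] at he
    unfold windmill at he
    rw [SimpleGraph.fromRel_adj] at he
    obtain ⟨hxy, h⟩ := he
    rcases h with (rfl | ⟨i, a, b, rfl, rfl⟩) | (rfl | ⟨i, a, b, rfl, rfl⟩)
    · left
      cases y with
      | none => exact absurd rfl hxy
      | some p => exact ⟨p.1, p.2, rfl⟩
    · right
      refine ⟨i, mem_inn.2 ⟨a, b, ?_, rfl⟩⟩
      rintro rfl
      exact hxy rfl
    · left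
      cases x with
      | none => exact absurd rfl hxy
      | some p => exact ⟨p.1, p.2, Sym2.eq_swap⟩
    · right
      refine ⟨i, mem_inn.2 ⟨b, a, ?_, rfl⟩⟩
      rintro rfl
      exact hxy rfl

lemma inn_edge {i : ι} {e : Sym2 (Option (ι × κ))} (he : e ∈ inn i) : e ∈ (windmill ι κ).edgeSet := by
  obtain ⟨a, b, hab, rfl⟩ := mem_inn.1 he
  rw [SimpleGraph.mem_edgeSet]
  unfold windmill
  rw [SimpleGraph.fromRel_adj]
  refine ⟨?_, Or.inl (Or.inr ⟨i, a, b, rfl, rfl⟩)⟩
  simp [hab]

lemma hub_edge (i : ι) (a : κ) : s(none, some (i, a)) ∈ (windmill ι κ).edgeSet := by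
  rw [SimpleGraph.mem_edgeSet]
  unfold windmill
  rw [SimpleGraph.fromRel_adj]
  exact ⟨by simp, Or.inl (Or.inl rfl)⟩

lemma card_inn (i : ι) : #(inn (κ := κ) i) = (Fintype.card κ).choose 2 := by
  classical
  rw [← Sym2.card_subtype_not_diag, Fintype.card_subtype]
  symm
  apply card_bij (fun e _ => Sym2.map (fun a => some (i, a)) e)
  · intro e he
    induction e with
    | _ a b =>
      simp only [mem_filter, mem_univ, true_and, Sym2.mk_isDiag_iff] at he
      rw [mem_inn]
      exact ⟨a, b, he, rfl⟩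
  · intro e _ e' _ h
    exact Sym2.map.injective (fun a b hab => by simpa using hab) h
  · intro e he
    obtain ⟨a, b, hab, rfl⟩ := mem_inn.1 he
    exact ⟨s(a, b), by simpa using hab, rfl⟩

/-- all vertices of the blob are warm -/
def allw (i : ι) (s : Conf (Option (ι × κ))) : Prop := ∀ a, some (i, a) ∉ s.2

/-- no vertex of the blob is frozen and no hub edge to the blob is open -/
def alive (i : ι) (s : Conf (Option (ι × κ))) : Prop := allw i s ∧ ∀ a, s(none, some (i, a)) ∉ s.1

/-- number of closed internal edges -/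
noncomputable def mm (i : ι) (s : Conf (Option (ι × κ))) : ℕ := #(inn i \ s.1)

/-- a blob is complete -/
def comp (s : Conf (Option (ι × κ))) : Prop := ∃ i, inn i ⊆ s.1

lemma mm_pos {s : Conf (Option (ι × κ))} (h : ¬ comp s) (i : ι) : 0 < mm i s := by
  unfold mm
  rw [card_pos, sdiff_nonempty]
  exact fun h' => h ⟨i, h'⟩

/-- A blob with a frozen vertex cannot be completed. -/
lemma allw_of_complete {s : Conf (Option (ι × κ))} (hs : Inv (windmill ι κ) s) {i : ι}
    {e : Sym2 (Option (ι × κ))} (he : e ∈ openable (windmill ι κ) s) (h1 : ¬ inn i ⊆ s.1)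
    (h2 : inn i ⊆ insert e s.1) : allw i s ∧ e ∈ inn i := by
  rw [mem_openable] at he
  have hei : e ∈ inn i := by
    by_contra h
    apply h1
    intro x hx
    rcases mem_insert.1 (h2 hx) with rfl | h'
    · exact absurd hx h
    · exact h'
  refine ⟨?_, hei⟩
  intro u hu
  obtain ⟨a, b, hab, rfl⟩ := mem_inn.1 hei
  have ha := he.2.2 (some (i, a)) (Sym2.mem_mk_left _ _)
  have hb := he.2.2 (some (i, b)) (Sym2.mem_mk_right _ _)
  have hua : u ≠ a := by rintro rfl; exact ha hu
  have hub : u ≠ b := by rintro rfl; exact hb hu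
  have h3 : s(some (i, u), some (i, a)) ∈ s.1 := by
    rcases mem_insert.1 (h2 (mem_inn.2 ⟨u, a, hua, rfl⟩)) with h | h
    · exfalso
      rw [Sym2.eq_iff] at h
      simp at h
      tauto
    · exact h
  exact ha ((hs.2 _ _ h3).1 hu)

lemma comp_open {s : Conf (Option (ι × κ))} (e : Sym2 (Option (ι × κ))) (h : comp s) :
    comp (insert e s.1, s.2) := by
  obtain ⟨i, hi⟩ := h
  exact ⟨i, hi.trans (subset_insert _ _)⟩

/-- If no blob is alive and the hub is frozen then nothing can be completed. -/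
lemma not_comp_open {s : Conf (Option (ι × κ))} (hs : Inv (windmill ι κ) s) (hn : none ∈ s.2)
    (ha : ∀ i : ι, ¬ alive i s) (hc : ¬ comp s) {e : Sym2 (Option (ι × κ))}
    (he : e ∈ openable (windmill ι κ) s) : ¬ comp (insert e s.1, s.2) := by
  rintro ⟨i, hi⟩
  obtain ⟨h1, h2⟩ := allw_of_complete hs he (fun h => hc ⟨i, h⟩) hi
  refine ha i ⟨h1, fun a h => ?_⟩
  exact h1 a ((hs.2 _ _ h).1 hn)

lemma alive_open {s : Conf (Option (ι × κ))} {i : ι} (e : Sym2 (Option (ι × κ)))
    (h : alive i ((insert e s.1, s.2) : Conf _)) : alive i s :=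
  ⟨h.1, fun a h' => h.2 a (mem_insert_of_mem h')⟩

lemma alive_freeze {s : Conf (Option (ι × κ))} {i : ι} (C : Finset (Option (ι × κ))) :
    alive i ((s.1, s.2 ∪ C) : Conf _) ↔ alive i s ∧ ∀ a, some (i, a) ∉ C := by
  unfold alive allw
  simp only [mem_union, not_or]
  constructor
  · rintro ⟨h1, h2⟩
    exact ⟨⟨fun a => (h1 a).1, h2⟩, fun a => (h1 a).2⟩
  · rintro ⟨⟨h1, h2⟩, h3⟩
    exact ⟨fun a => ⟨h1 a, h3 a⟩, h2⟩

/-- The cluster of a vertex of an alive blob stays in the blob. -/
lemma alive_cluster {s : Conf (Option (ι × κ))} (hs : Inv (windmill ι κ) s) {i : ι} (hi : alive i s)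
    {C : Finset (Option (ι × κ))} (hC : C ∈ warm s) {a : κ} (ha : some (i, a) ∈ C) :
    ∀ x ∈ C, ∃ b, x = some (i, b) := by
  obtain ⟨⟨w, rfl⟩, _⟩ := mem_warm.1 hC
  rw [cluster_eq ha]
  intro x hx
  unfold cluster at hx
  simp only [mem_filter, mem_univ, true_and] at hx
  refine reach_closed _ (fun x => ∃ b, x = some (i, b)) ?_ hx ⟨a, rfl⟩
  rintro x y ⟨b, rfl⟩ hxy
  have hxy' : s(some (i, b), y) ∈ s.1 := by simpa using hxy
  rcases edge_cases (hs.1 _ hxy') with ⟨j, c, h⟩ | ⟨j, h⟩
  · exfalso
    rw [Sym2.eq_iff] at h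
    rcases h with ⟨h, _⟩ | ⟨h, h'⟩
    · simp at h
    · rw [h'] at hxy'
      exact hi.2 b (Sym2.eq_swap ▸ hxy')
  · obtain ⟨rfl, c, _, rfl⟩ := mk_mem_inn.1 h
    exact ⟨c, rfl⟩


/-! ### binomial weights -/

/-- `C(n+b, b)` -/
noncomputable def q (b n : ℕ) : ℝ := ((n + b).choose b : ℝ)

lemma q_pos (b n : ℕ) : 0 < q b n := by
  unfold q
  exact_mod_cast Nat.choose_pos (by omega)

lemma q_zero (b : ℕ) : q b 0 = 1 := by simp [q]

lemma q_succ (b n : ℕ) : q b (n + 1) * (n + 1) = q b n * (n + 1 + b) := by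
  unfold q
  have h := Nat.choose_mul_succ_eq (n + b) b
  have h2 : n + b + 1 - b = n + 1 := by omega
  rw [h2] at h
  have h3 : n + 1 + b = n + b + 1 := by ring
  rw [h3]
  have h4 : (((n + b).choose b : ℝ)) * ((n + b + 1 : ℕ) : ℝ) = ((n + b + 1).choose b : ℝ) * ((n + 1 : ℕ) : ℝ) := by
    exact_mod_cast h
  push_cast at h4
  linarith

lemma q_mono (b : ℕ) : Monotone (q b) := by
  apply monotone_nat_of_le_succ
  intro n
  unfold q
  exact_mod_cast Nat.choose_le_choose b (by omega)

/-- the gain of a blob -/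
lemma q_gain (b m : ℕ) (hm : 0 < m) : (m : ℝ) * ((q b (m - 1))⁻¹ - (q b m)⁻¹) = b * (q b m)⁻¹ := by
  obtain ⟨n, rfl⟩ : ∃ n, m = n + 1 := ⟨m - 1, by omega⟩
  have h := q_succ b n
  have h1 := q_pos b n
  have h2 := q_pos b (n + 1)
  rw [Nat.add_sub_cancel]
  push_cast
  field_simp
  linarith

/-! ### upper bound at rate 1 -/

section upper

open Classical in
/-- weight of a blob all of whose vertices are warm -/
noncomputable def ph (K : ℕ) (i : ι) (s : Conf (Option (ι × κ))) : ℝ :=
  if allw i s then (q K (mm i s))⁻¹ else 0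

noncomputable def SS (K : ℕ) (s : Conf (Option (ι × κ))) : ℝ := ∑ i : ι, ph K i s

noncomputable def UU (K : ℕ) (s : Conf (Option (ι × κ))) : ℝ := SS K s ^ ((1 : ℝ) / K)

lemma ph_nonneg (K : ℕ) (i : ι) (s : Conf (Option (ι × κ))) : 0 ≤ ph K i s := by
  unfold ph
  have := q_pos K (mm i s)
  split_ifs <;> positivity

lemma SS_nonneg (K : ℕ) (s : Conf (Option (ι × κ))) : 0 ≤ SS K s :=
  sum_nonneg fun i _ => ph_nonneg K i s

lemma mm_open_of_mem {i : ι} {s : Conf (Option (ι × κ))} {e : Sym2 (Option (ι × κ))}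
    (he : e ∈ inn i \ s.1) : mm i ((insert e s.1, s.2) : Conf _) = mm i s - 1 := by
  unfold mm
  have : inn i \ insert e s.1 = (inn i \ s.1).erase e := by
    ext x
    simp only [mem_sdiff, mem_insert, mem_erase]
    tauto
  rw [this, card_erase_of_mem he]

lemma mm_open_of_notMem {i : ι} {s : Conf (Option (ι × κ))} {e : Sym2 (Option (ι × κ))}
    (he : e ∉ inn i) : mm i ((insert e s.1, s.2) : Conf _) = mm i s := by
  unfold mm
  congr 1
  ext x
  simp only [mem_sdiff, mem_insert]
  constructor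
  · tauto
  · rintro ⟨h1, h2⟩
    refine ⟨h1, ?_⟩
    rintro (rfl | h)
    · exact he h1
    · exact h2 h

lemma openable_inn {i : ι} {s : Conf (Option (ι × κ))} (hi : allw i s) :
    (openable (windmill ι κ) s).filter (· ∈ inn i) = inn i \ s.1 := by
  ext e
  rw [mem_filter, mem_openable, mem_sdiff]
  constructor
  · tauto
  · rintro ⟨h1, h2⟩
    refine ⟨⟨inn_edge h1, h2, ?_⟩, h1⟩
    obtain ⟨a, b, hab, rfl⟩ := mem_inn.1 h1
    intro v hv
    rcases Sym2.mem_iff.1 hv with rfl | rfl
    · exact hi a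
    · exact hi b

lemma ph_gen (K : ℕ) {s : Conf (Option (ι × κ))} (hc : ¬ comp s) (i : ι) :
    ∑ e ∈ openable (windmill ι κ) s, (ph K i (insert e s.1, s.2) - ph K i s) = K * ph K i s := by
  by_cases hi : allw i s
  · rw [← sum_filter_add_sum_filter_not _ (· ∈ inn i), openable_inn hi]
    have h1 : ∀ e ∈ inn i \ s.1, ph K i (insert e s.1, s.2) - ph K i s =
        (q K (mm i s - 1))⁻¹ - (q K (mm i s))⁻¹ := by
      intro e he
      unfold ph
      rw [if_pos hi, if_pos (show allw i (insert e s.1, s.2) from hi), mm_open_of_mem he]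
    rw [sum_congr rfl h1, sum_const]
    have h2 : ∑ e ∈ (openable (windmill ι κ) s).filter (fun x => ¬ x ∈ inn i),
        (ph K i (insert e s.1, s.2) - ph K i s) = 0 := by
      refine sum_eq_zero fun e he => ?_
      rw [mem_filter] at he
      unfold ph
      rw [if_pos hi, if_pos (show allw i (insert e s.1, s.2) from hi), mm_open_of_notMem he.2, sub_self]
    rw [h2, add_zero, nsmul_eq_mul]
    have := q_gain K (mm i s) (mm_pos hc i)
    unfold mm at this ⊢
    rw [this]
    unfold ph
    rw [if_pos hi]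
    rfl
  · have h0 : ph K i s = 0 := by unfold ph; rw [if_neg hi]
    rw [h0, mul_zero]
    refine sum_eq_zero fun e _ => ?_
    unfold ph
    rw [if_neg (show ¬ allw i (insert e s.1, s.2) from hi), sub_zero]

lemma SS_gen (K : ℕ) {s : Conf (Option (ι × κ))} (hc : ¬ comp s) :
    ∑ e ∈ openable (windmill ι κ) s, (SS K (insert e s.1, s.2) - SS K s) = K * SS K s := by
  unfold SS
  simp_rw [← sum_sub_distrib]
  rw [sum_comm, mul_sum]
  exact sum_congr rfl fun i _ => ph_gen K hc i

lemma ph_open_le (K : ℕ) {s : Conf (Option (ι × κ))} (i : ι) (e : Sym2 (Option (ι × κ))) : ph K i s ≤ ph K i (insert e s.1, s.2) := by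
  unfold ph
  by_cases hi : allw i s
  · rw [if_pos hi, if_pos (show allw i (insert e s.1, s.2) from hi)]
    apply inv_anti₀ (q_pos _ _)
    apply q_mono
    unfold mm
    apply card_le_card
    exact sdiff_subset_sdiff (subset_refl _) (subset_insert _ _)
  · rw [if_neg hi, if_neg (show ¬ allw i (insert e s.1, s.2) from hi)]

lemma UU_gen (K : ℕ) (hK : 0 < K) {s : Conf (Option (ι × κ))} (hc : ¬ comp s) :
    ∑ e ∈ openable (windmill ι κ) s, UU K (insert e s.1, s.2) ≤
      #(openable (windmill ι κ) s) * UU K s + UU K s := by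
  have hKR : (0 : ℝ) < K := by exact_mod_cast hK
  have hK1 : (1 : ℝ) ≤ K := by exact_mod_cast hK
  rcases (SS_nonneg K s).eq_or_lt with h0 | h0
  · have hz : ∀ i, ph K i s = 0 := by
      intro i
      have := (sum_eq_zero_iff_of_nonneg (fun i _ => ph_nonneg K i s)).1 h0.symm
      exact this i (mem_univ _)
    have hall : ∀ i, ¬ allw i s := by
      intro i hi
      have := hz i
      unfold ph at this
      rw [if_pos hi] at this
      have := inv_pos.2 (q_pos K (mm i s))
      linarith
    have h1 : ∀ e ∈ openable (windmill ι κ) s, UU K (insert e s.1, s.2) = 0 := by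
      intro e _
      unfold UU
      have : SS K (insert e s.1, s.2) = 0 := by
        unfold SS
        refine sum_eq_zero fun i _ => ?_
        unfold ph
        rw [if_neg (show ¬ allw i (insert e s.1, s.2) from hall i)]
      rw [this, Real.zero_rpow (by positivity)]
    rw [sum_eq_zero h1]
    have : 0 ≤ UU K s := by unfold UU; exact Real.rpow_nonneg (SS_nonneg K s) _
    positivity
  · have hU : 0 ≤ UU K s := by unfold UU; exact Real.rpow_nonneg (SS_nonneg K s) _
    have h1 : ∀ e ∈ openable (windmill ι κ) s, UU K (insert e s.1, s.2) ≤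
        UU K s + UU K s * (1 / K / SS K s) * (SS K (insert e s.1, s.2) - SS K s) := by
      intro e he
      have hle : SS K s ≤ SS K (insert e s.1, s.2) :=
        sum_le_sum fun i _ => ph_open_le K i e
      have h2 : SS K (insert e s.1, s.2) = SS K s * (1 + (SS K (insert e s.1, s.2) - SS K s) / SS K s) := by
        field_simp
        ring
      have h3 : 0 ≤ (SS K (insert e s.1, s.2) - SS K s) / SS K s := div_nonneg (by linarith) h0.le
      have h4 : UU K (insert e s.1, s.2) = UU K s *
          (1 + (SS K (insert e s.1, s.2) - SS K s) / SS K s) ^ ((1 : ℝ) / K) := by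
        unfold UU
        rw [← Real.mul_rpow h0.le (by linarith), ← h2]
      have h5 := rpow_one_add_le_one_add_mul_self (s := (SS K (insert e s.1, s.2) - SS K s) / SS K s)
        (by linarith) (p := (1 : ℝ) / K) (by positivity) (by rw [div_le_one hKR]; exact hK1)
      rw [h4]
      refine (mul_le_mul_of_nonneg_left h5 hU).trans (le_of_eq ?_)
      field_simp
    refine (sum_le_sum h1).trans ?_
    rw [sum_add_distrib, sum_const, ← mul_sum, SS_gen K hc, nsmul_eq_mul]
    apply le_of_eq
    field_simp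

/-- probability bound that the hub freezes before `n` blobs are joined to it -/
noncomputable def ZZ (N : ℕ) : ℕ → ℝ
  | 0 => 0
  | n + 1 => (N * (n + 1) * ZZ N n + 1) / (N * (n + 1) + 1)

lemma ZZ_bd (N n : ℕ) : 0 ≤ ZZ N n ∧ ZZ N n ≤ 1 := by
  induction n with
  | zero => simp [ZZ]
  | succ n ih =>
    unfold ZZ
    refine ⟨by have := ih.1; positivity, ?_⟩
    rw [div_le_one (by positivity)]
    have : (N : ℝ) * (n + 1) * ZZ N n ≤ N * (n + 1) * 1 := mul_le_mul_of_nonneg_left ih.2 (by positivity)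
    linarith

lemma ZZ_eq (N n : ℕ) : (N * (n + 1) : ℝ) * (ZZ N (n + 1) - ZZ N n) = 1 - ZZ N (n + 1) := by
  have h : ZZ N (n + 1) = (N * (n + 1) * ZZ N n + 1) / (N * (n + 1) + 1) := rfl
  have h2 : (0 : ℝ) < N * (n + 1) + 1 := by positivity
  rw [h]
  field_simp
  ring

lemma ZZ_mono (N : ℕ) (hN : 0 < N) : Monotone (ZZ N) := by
  apply monotone_nat_of_le_succ
  intro n
  have h1 := ZZ_eq N n
  have h2 := (ZZ_bd N (n + 1)).2
  have h3 : (0 : ℝ) < N * (n + 1) := by positivity
  by_contra hlt
  push Not at hlt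
  have : (N * (n + 1) : ℝ) * (ZZ N (n + 1) - ZZ N n) < 0 := mul_neg_of_pos_of_neg h3 (by linarith)
  linarith

lemma ZZ_le (N : ℕ) (hN : 0 < N) (n : ℕ) : ZZ N n ≤ (harmonic n : ℝ) / N := by
  have hNR : (0 : ℝ) < N := by exact_mod_cast hN
  induction n with
  | zero => simp [ZZ]
  | succ n ih =>
    have h1 := ZZ_eq N n
    have h2 := (ZZ_bd N (n + 1)).1
    have h3 : (0 : ℝ) < N * (n + 1) := by positivity
    rw [harmonic_succ]
    push_cast
    have h4 : ZZ N (n + 1) - ZZ N n ≤ 1 / (N * (n + 1)) := by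
      rw [le_div_iff₀ h3]
      linarith
    have h5 : ((harmonic n : ℝ) + ((n : ℝ) + 1)⁻¹) / N = (harmonic n : ℝ) / N + 1 / (N * (n + 1)) := by
      field_simp
    rw [h5]
    linarith

open Classical in
/-- number of alive blobs -/
noncomputable def nal (s : Conf (Option (ι × κ))) : ℕ := #{i : ι | alive i s}

open Classical in
/-- the superharmonic function -/
noncomputable def F1 (K : ℕ) (s : Conf (Option (ι × κ))) : ℝ :=
  if comp s then 1 else if none ∈ s.2 then (if nal s = 0 then 0 else 1)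
  else UU K s + ZZ (Fintype.card κ) (nal s)

lemma nal_open_le (s : Conf (Option (ι × κ))) (e : Sym2 (Option (ι × κ))) :
    nal ((insert e s.1, s.2) : Conf _) ≤ nal s := by
  unfold nal
  apply card_le_card
  intro i
  simp only [mem_filter, mem_univ, true_and]
  exact alive_open e

lemma nal_freeze_le (s : Conf (Option (ι × κ))) (C : Finset (Option (ι × κ))) :
    nal ((s.1, s.2 ∪ C) : Conf _) ≤ nal s := by
  unfold nal
  apply card_le_card
  intro i
  simp only [mem_filter, mem_univ, true_and]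
  exact fun h => ((alive_freeze C).1 h).1

lemma nal_zero {s : Conf (Option (ι × κ))} (h : nal s = 0) (i : ι) : ¬ alive i s := by
  unfold nal at h
  rw [card_eq_zero] at h
  intro hi
  have : i ∈ (∅ : Finset ι) := by
    rw [← h]
    simpa using hi
  simp at this

lemma F1_le_one {K : ℕ} {s : Conf (Option (ι × κ))} (h : none ∈ s.2) : F1 K s ≤ 1 := by
  unfold F1
  split_ifs <;> norm_num

lemma UU_nonneg (K : ℕ) (s : Conf (Option (ι × κ))) : 0 ≤ UU K s :=
  Real.rpow_nonneg (SS_nonneg K s) _

lemma UU_freeze_le (K : ℕ) (s : Conf (Option (ι × κ))) (C : Finset (Option (ι × κ))) :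
    UU K (s.1, s.2 ∪ C) ≤ UU K s := by
  unfold UU
  apply Real.rpow_le_rpow (SS_nonneg _ _) _ (by positivity)
  refine sum_le_sum fun i _ => ?_
  by_cases h : allw i ((s.1, s.2 ∪ C) : Conf _)
  · have h' : allw i s := fun a ha => h a (mem_union_left _ ha)
    unfold ph
    rw [if_pos h, if_pos h']
    rfl
  · have : ph K i (s.1, s.2 ∪ C) = 0 := by unfold ph; rw [if_neg h]
    rw [this]
    exact ph_nonneg K i s

lemma he_inj {i j : ι} {a b : κ} (h : s(none, some (i, a)) = s(none, some (j, b))) : i = j ∧ a = b := by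
  rw [Sym2.eq_iff] at h
  simpa using h

lemma F1_super (K : ℕ) (hK : 0 < K) (hN : 0 < Fintype.card κ) {s : Conf (Option (ι × κ))}
    (hs : Inv (windmill ι κ) s) :
    Mv (windmill ι κ) 1 (F1 K) s ≤ R (windmill ι κ) 1 s * F1 K s := by
  classical
  set O := openable (windmill ι κ) s with hO
  have hRr : R (windmill ι κ) 1 s = #O + #(warm s) := by unfold R; simp [hO]
  have hMr : Mv (windmill ι κ) 1 (F1 K) s =
      ∑ e ∈ O, F1 K (insert e s.1, s.2) + ∑ C ∈ warm s, F1 K (s.1, s.2 ∪ C) := by
    unfold Mv; simp [hO]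
  rw [hRr, hMr]
  by_cases hc : comp s
  · have h1 : F1 K s = 1 := by unfold F1; rw [if_pos hc]
    have h2 : ∀ e ∈ O, F1 K (insert e s.1, s.2) = 1 := by
      intro e _
      unfold F1
      rw [if_pos (comp_open e hc)]
    have h3 : ∀ C ∈ warm s, F1 K (s.1, s.2 ∪ C) = 1 := by
      intro C _
      unfold F1
      rw [if_pos (show comp ((s.1, s.2 ∪ C) : Conf _) from hc)]
    rw [sum_congr rfl h2, sum_congr rfl h3, h1]
    simp
  · by_cases hn : none ∈ s.2
    · by_cases h0 : nal s = 0
      · have h2 : ∀ e ∈ O, F1 K (insert e s.1, s.2) = 0 := by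
          intro e he
          unfold F1
          rw [if_neg (not_comp_open hs hn (nal_zero h0) hc he), if_pos (show none ∈ s.2 from hn), if_pos]
          have := nal_open_le s e
          omega
        have h3 : ∀ C ∈ warm s, F1 K (s.1, s.2 ∪ C) = 0 := by
          intro C _
          unfold F1
          rw [if_neg (show ¬ comp ((s.1, s.2 ∪ C) : Conf _) from hc), if_pos (mem_union_left _ hn), if_pos]
          have := nal_freeze_le s C
          omega
        have h1 : F1 K s = 0 := by unfold F1; rw [if_neg hc, if_pos hn, if_pos h0]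
        rw [sum_congr rfl h2, sum_congr rfl h3, h1]
        simp
      · have h1 : F1 K s = 1 := by unfold F1; rw [if_neg hc, if_pos hn, if_neg h0]
        rw [h1, mul_one]
        refine add_le_add ?_ ?_
        · refine (sum_le_card_nsmul O (fun e => F1 K (insert e s.1, s.2)) 1
            fun e _ => F1_le_one (show none ∈ s.2 from hn)).trans ?_
          simp
        · refine (sum_le_card_nsmul _ _ 1 fun C _ => F1_le_one (mem_union_left _ hn)).trans ?_
          simp
    · -- the hub is warm
      set N := Fintype.card κ with hNdef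
      set n := nal s with hndef
      have h1 : F1 K s = UU K s + ZZ N n := by unfold F1; rw [if_neg hc, if_neg hn]
      have hO1 : ∀ e ∈ O, F1 K (insert e s.1, s.2) ≤
          UU K (insert e s.1, s.2) + ZZ N (nal ((insert e s.1, s.2) : Conf (Option (ι × κ)))) := by
        intro e he
        unfold F1
        split_ifs with h2
        · obtain ⟨i, hi⟩ := h2
          obtain ⟨h3, h4⟩ := allw_of_complete hs he (fun h => hc ⟨i, h⟩) hi
          have h5 : ph K i (insert e s.1, s.2) = 1 := by
            unfold ph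
            rw [if_pos (show allw i (insert e s.1, s.2) from h3)]
            have : mm i ((insert e s.1, s.2) : Conf _) = 0 := by
              unfold mm
              rw [card_eq_zero, sdiff_eq_empty_iff_subset]
              exact hi
            rw [this, q_zero, inv_one]
          have h6 : 1 ≤ SS K (insert e s.1, s.2) := by
            rw [← h5]
            exact single_le_sum (f := fun i => ph K i (insert e s.1, s.2))
              (fun i _ => ph_nonneg K i _) (mem_univ i)
          have h7 : 1 ≤ UU K (insert e s.1, s.2) := Real.one_le_rpow h6 (by positivity)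
          have h8 := (ZZ_bd N (nal ((insert e s.1, s.2) : Conf (Option (ι × κ))))).1
          linarith
        · exact le_refl _
      have hW := warm_cluster hs hn
      have hC1 : ∀ C ∈ (warm s).erase (cluster s none), F1 K (s.1, s.2 ∪ C) ≤ UU K s + ZZ N n := by
        intro C hC
        rw [mem_erase] at hC
        have hnC : none ∉ C := by
          intro h
          obtain ⟨⟨w, rfl⟩, _⟩ := mem_warm.1 hC.2
          exact hC.1 (cluster_eq h)
        unfold F1
        rw [if_neg (show ¬ comp ((s.1, s.2 ∪ C) : Conf _) from hc), if_neg (by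
          simp only [mem_union, not_or]; exact ⟨hn, hnC⟩)]
        exact add_le_add (UU_freeze_le K s C) (ZZ_mono N hN (nal_freeze_le s C))
      have hCh : F1 K (s.1, s.2 ∪ cluster s none) ≤ if n = 0 then 0 else 1 := by
        unfold F1
        rw [if_neg (show ¬ comp ((s.1, s.2 ∪ cluster s none) : Conf _) from hc),
          if_pos (mem_union_right _ (cluster_nonempty s none))]
        have := nal_freeze_le s (cluster s none)
        split_ifs <;> first | omega | norm_num
      have hsum2 : ∑ C ∈ warm s, F1 K (s.1, s.2 ∪ C) ≤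
          ((#(warm s) : ℝ) - 1) * (UU K s + ZZ N n) + (if n = 0 then 0 else 1) := by
        rw [← sum_erase_add _ _ hW]
        refine add_le_add ((sum_le_card_nsmul _ _ _ hC1).trans (le_of_eq ?_)) hCh
        rw [card_erase_of_mem hW, nsmul_eq_mul, Nat.cast_sub (card_pos.2 ⟨_, hW⟩)]
        simp
      -- hub edges
      have hsum3 : ∑ e ∈ O, ZZ N (nal ((insert e s.1, s.2) : Conf (Option (ι × κ)))) ≤
          #O * ZZ N n - N * n * (ZZ N n - ZZ N (n - 1)) := by
        set X : Finset (Sym2 (Option (ι × κ))) :=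
          ((univ.filter fun i : ι => alive i s) ×ˢ (univ : Finset κ)).image
            (fun p => s(none, some (p.1, p.2))) with hX
        have hXc : #X = n * N := by
          rw [hX, card_image_of_injective, card_product]
          · rfl
          · rintro ⟨i, a⟩ ⟨j, b⟩ h
            obtain ⟨rfl, rfl⟩ := he_inj h
            rfl
        have hXO : X ⊆ O := by
          intro e he
          rw [hX, mem_image] at he
          obtain ⟨⟨i, a⟩, hi, rfl⟩ := he
          simp only [mem_product, mem_filter, mem_univ, true_and, and_true] at hi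
          rw [hO, mem_openable]
          refine ⟨hub_edge i a, hi.2 a, ?_⟩
          intro v hv
          rcases Sym2.mem_iff.1 hv with rfl | rfl
          · exact hn
          · exact hi.1 a
        have h2 : ∀ e ∈ O, ZZ N (nal ((insert e s.1, s.2) : Conf (Option (ι × κ)))) ≤
            if e ∈ X then ZZ N (n - 1) else ZZ N n := by
          intro e he
          split_ifs with h
          · apply ZZ_mono N hN
            rw [hX, mem_image] at h
            obtain ⟨⟨i, a⟩, hi, rfl⟩ := h
            simp only [mem_product, mem_filter, mem_univ, true_and, and_true] at hi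
            simp only
            have : nal ((insert s(none, some (i, a)) s.1, s.2) : Conf (Option (ι × κ))) < n := by
              rw [hndef]
              unfold nal
              apply card_lt_card
              refine ⟨?_, ?_⟩
              · intro j
                simp only [mem_filter, mem_univ, true_and]
                exact alive_open _
              · intro h
                have := h (show i ∈ univ.filter (fun j => alive j s) by simpa using hi)
                simp only [mem_filter, mem_univ, true_and] at this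
                exact this.2 a (mem_insert_self _ _)
            omega
          · exact ZZ_mono N hN (nal_open_le s e)
        refine (sum_le_sum h2).trans ?_
        rw [sum_ite, sum_const, sum_const, filter_mem_eq_inter, inter_eq_right.2 hXO]
        have h3 : O.filter (fun e => e ∉ X) = O \ X := by
          ext e; simp
        rw [h3, card_sdiff_of_subset hXO, hXc, nsmul_eq_mul, nsmul_eq_mul, Nat.cast_sub (by
          rw [← hXc]; exact card_le_card hXO)]
        push_cast
        apply le_of_eq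
        ring
      have hsum1 : ∑ e ∈ O, F1 K (insert e s.1, s.2) ≤ #O * UU K s + UU K s +
          (#O * ZZ N n - N * n * (ZZ N n - ZZ N (n - 1))) := by
        refine (sum_le_sum hO1).trans ?_
        rw [sum_add_distrib]
        exact add_le_add (UU_gen K hK hc) hsum3
      have hZ : (if n = 0 then (0 : ℝ) else 1) = ZZ N n + N * n * (ZZ N n - ZZ N (n - 1)) := by
        rcases Nat.eq_zero_or_pos n with h | h
        · rw [if_pos h, h]
          simp [ZZ]
        · rw [if_neg (by omega)]
          obtain ⟨m, hm⟩ : ∃ m, n = m + 1 := ⟨n - 1, by omega⟩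
          rw [hm, Nat.add_sub_cancel]
          have := ZZ_eq N m
          push_cast
          linarith
      rw [h1]
      rw [hZ] at hsum2
      linarith

end upper


/-! ### lower bound at a large rate -/

section lower

open Classical in
/-- vertices of the blob that are joined to its root inside the blob -/
noncomputable def rc (a0 : κ) (i : ι) (s : Conf (Option (ι × κ))) : Finset κ :=
  univ.filter fun a => (SimpleGraph.fromEdgeSet ((s.1 ∩ inn i : Finset _) : Set (Sym2 (Option (ι × κ))))).Reachable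
    (some (i, a0)) (some (i, a))

open Classical in
/-- lower bound for the probability that a blob is completed -/
noncomputable def gg (b : ℕ) (a0 : κ) (i : ι) (s : Conf (Option (ι × κ))) : ℝ :=
  if alive i s then q b (#(rc a0 i s) - 1) / (q b (mm i s) * q b (Fintype.card κ - 1)) else 0

lemma rc_root (a0 : κ) (i : ι) (s : Conf (Option (ι × κ))) : a0 ∈ rc a0 i s := by
  unfold rc
  simp

lemma rc_pos (a0 : κ) (i : ι) (s : Conf (Option (ι × κ))) : 0 < #(rc a0 i s) :=
  card_pos.2 ⟨a0, rc_root a0 i s⟩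

lemma rc_le (a0 : κ) (i : ι) (s : Conf (Option (ι × κ))) : #(rc a0 i s) ≤ Fintype.card κ :=
  card_le_univ _

lemma gg_nonneg (b : ℕ) (a0 : κ) (i : ι) (s : Conf (Option (ι × κ))) : 0 ≤ gg b a0 i s := by
  unfold gg
  split_ifs
  · have h1 := q_pos b (#(rc a0 i s) - 1)
    have h2 := q_pos b (mm i s)
    have h3 := q_pos b (Fintype.card κ - 1)
    positivity
  · exact le_refl _

lemma gg_le_one (b : ℕ) (a0 : κ) (i : ι) (s : Conf (Option (ι × κ))) : gg b a0 i s ≤ 1 := by
  unfold gg
  split_ifs
  · have h2 := q_pos b (mm i s)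
    have h3 := q_pos b (Fintype.card κ - 1)
    rw [div_le_one (by positivity)]
    have h4 : q b (#(rc a0 i s) - 1) ≤ q b (Fintype.card κ - 1) := q_mono b (by have := rc_le a0 i s; omega)
    have h5 : 1 ≤ q b (mm i s) := by rw [← q_zero b]; exact q_mono b (Nat.zero_le _)
    nlinarith
  · norm_num

lemma rc_mono {a0 : κ} {i : ι} {s t : Conf (Option (ι × κ))} (h : s.1 ⊆ t.1) : rc a0 i s ⊆ rc a0 i t := by
  unfold rc
  intro a
  simp only [mem_filter, mem_univ, true_and]
  intro h1
  refine h1.mono ?_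
  apply SimpleGraph.fromEdgeSet_mono
  exact_mod_cast inter_subset_inter_right h

lemma gg_open_other {b : ℕ} {a0 : κ} {i : ι} {s : Conf (Option (ι × κ))} {e : Sym2 (Option (ι × κ))}
    (h1 : e ∉ inn i) (h2 : ∀ a, e ≠ s(none, some (i, a))) :
    gg b a0 i (insert e s.1, s.2) = gg b a0 i s := by
  have ha : alive i ((insert e s.1, s.2) : Conf _) ↔ alive i s := by
    refine ⟨alive_open e, fun h => ⟨h.1, fun a h' => ?_⟩⟩
    rcases mem_insert.1 h' with h' | h'
    · exact h2 a h'.symm
    · exact h.2 a h'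
  have hr : rc a0 i ((insert e s.1, s.2) : Conf _) = rc a0 i s := by
    unfold rc
    have : insert e s.1 ∩ inn i = s.1 ∩ inn i := by
      rw [insert_inter_of_notMem h1]
    ext a
    simp only [mem_filter, mem_univ, true_and]
    rw [this]
  unfold gg
  by_cases h : alive i s
  · rw [if_pos h, if_pos (ha.2 h), hr, mm_open_of_notMem h1]
  · rw [if_neg h, if_neg (fun h' => h (ha.1 h'))]

lemma gg_hub {b : ℕ} {a0 : κ} {i : ι} {s : Conf (Option (ι × κ))} (a : κ) :
    gg b a0 i (insert s(none, some (i, a)) s.1, s.2) = 0 := by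
  unfold gg
  rw [if_neg]
  intro h
  exact h.2 a (mem_insert_self _ _)

lemma gg_freeze_other {b : ℕ} {a0 : κ} {i : ι} {s : Conf (Option (ι × κ))} {C : Finset (Option (ι × κ))}
    (h : ∀ a, some (i, a) ∉ C) : gg b a0 i (s.1, s.2 ∪ C) = gg b a0 i s := by
  have ha : alive i ((s.1, s.2 ∪ C) : Conf _) ↔ alive i s := by
    rw [alive_freeze]
    tauto
  unfold gg
  by_cases h : alive i s
  · rw [if_pos h, if_pos (ha.2 h)]
    rfl
  · rw [if_neg h, if_neg (fun h' => h (ha.1 h'))]

lemma gg_freeze_self {b : ℕ} {a0 : κ} {i : ι} {s : Conf (Option (ι × κ))} {C : Finset (Option (ι × κ))}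
    {a : κ} (h : some (i, a) ∈ C) : gg b a0 i (s.1, s.2 ∪ C) = 0 := by
  unfold gg
  rw [if_neg]
  intro h'
  exact ((alive_freeze C).1 h').2 a h

lemma gg_dead {b : ℕ} {a0 : κ} {i : ι} {s : Conf (Option (ι × κ))} (h : ¬ alive i s) :
    gg b a0 i s = 0 := by
  unfold gg
  rw [if_neg h]

/-- the hub part of the generator -/
noncomputable def hb (s : Conf (Option (ι × κ))) : ℝ := if none ∈ s.2 then 0 else Fintype.card κ

lemma hb_nonneg (s : Conf (Option (ι × κ))) : 0 ≤ hb s := by
  unfold hb; split_ifs <;> positivity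

lemma inner_sum (b : ℕ) (a0 : κ) {s : Conf (Option (ι × κ))} {i : ι} (hi : alive i s)
    (hm : 0 < mm i s) :
    ((mm i s : ℝ) + b * (1 + Fintype.card κ - #(rc a0 i s))) * gg b a0 i s ≤
      ∑ e ∈ inn i \ s.1, gg b a0 i (insert e s.1, s.2) := by
  classical
  set m := mm i s with hmdef
  set N := Fintype.card κ with hN
  set r := #(rc a0 i s) with hr
  have hr1 : 0 < r := rc_pos a0 i s
  have hrN : r ≤ N := rc_le a0 i s
  set Q := q b (N - 1) with hQ
  have hQp : 0 < Q := q_pos b _
  -- the edges which leave the cluster of the root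
  set X : Finset (Sym2 (Option (ι × κ))) :=
    ((rc a0 i s) ×ˢ (rc a0 i s)ᶜ).image (fun p => s(some (i, p.1), some (i, p.2))) with hX
  have hXc : #X = r * (N - r) := by
    rw [hX, card_image_of_injOn, card_product, card_compl]
    rintro ⟨a, c⟩ h1 ⟨a', c'⟩ h2 h
    simp only [coe_product, Set.mem_prod, mem_coe, mem_compl] at h1 h2
    simp only at h
    rw [Sym2.eq_iff] at h
    simp only [Option.some.injEq, Prod.mk.injEq, true_and] at h
    rcases h with ⟨h3, h4⟩ | ⟨h3, h4⟩
    · rw [h3, h4]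
    · exact absurd (h3 ▸ h1.1) h2.2
  have hreach : ∀ a c, a ∈ rc a0 i s → c ∉ rc a0 i s → s(some (i, a), some (i, c)) ∉ s.1 := by
    intro a c ha hc h
    apply hc
    have hac : a ≠ c := by rintro rfl; exact hc ha
    unfold rc at ha ⊢
    simp only [mem_filter, mem_univ, true_and] at ha ⊢
    refine ha.trans (SimpleGraph.Adj.reachable ?_)
    rw [SimpleGraph.fromEdgeSet_adj]
    refine ⟨?_, by simpa using hac⟩
    rw [mem_coe, mem_inter]
    exact ⟨h, mem_inn.2 ⟨a, c, hac, rfl⟩⟩
  have hXsub : X ⊆ inn i \ s.1 := by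
    intro e he
    rw [hX, mem_image] at he
    obtain ⟨⟨a, c⟩, hp, rfl⟩ := he
    simp only [mem_product, mem_compl] at hp
    rw [mem_sdiff]
    exact ⟨mem_inn.2 ⟨a, c, by rintro rfl; exact hp.2 hp.1, rfl⟩, hreach a c hp.1 hp.2⟩
  have hval : ∀ e ∈ inn i \ s.1, gg b a0 i (insert e s.1, s.2) =
      q b (#(rc a0 i ((insert e s.1, s.2) : Conf _)) - 1) / (q b (m - 1) * Q) := by
    intro e he
    unfold gg
    rw [if_pos, mm_open_of_mem he]
    refine ⟨hi.1, fun a h' => ?_⟩
    rcases mem_insert.1 h' with h' | h'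
    · rw [mem_sdiff] at he
      rw [← h'] at he
      exact none_not_inn he.1
    · exact hi.2 a h'
  have hlow : ∀ e ∈ inn i \ s.1, (if e ∈ X then q b r / (q b (m - 1) * Q) else q b (r - 1) / (q b (m - 1) * Q)) ≤
      gg b a0 i (insert e s.1, s.2) := by
    intro e he
    rw [hval e he]
    have hp : 0 < q b (m - 1) * Q := mul_pos (q_pos _ _) hQp
    have hsub : rc a0 i s ⊆ rc a0 i ((insert e s.1, s.2) : Conf _) := rc_mono (subset_insert _ _)
    split_ifs with h
    · apply div_le_div_of_nonneg_right _ hp.le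
      apply q_mono
      rw [hX, mem_image] at h
      obtain ⟨⟨a, c⟩, hp, rfl⟩ := h
      simp only [mem_product, mem_compl] at hp
      have : r < #(rc a0 i ((insert s(some (i, a), some (i, c)) s.1, s.2) : Conf (Option (ι × κ)))) := by
        apply card_lt_card
        refine ⟨hsub, fun h => hp.2 (h ?_)⟩
        have ha := hsub hp.1
        have hac : a ≠ c := by rintro rfl; exact hp.2 hp.1
        unfold rc at ha ⊢
        simp only [mem_filter, mem_univ, true_and] at ha ⊢
        refine ha.trans (SimpleGraph.Adj.reachable ?_)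
        rw [SimpleGraph.fromEdgeSet_adj]
        refine ⟨?_, by simpa using hac⟩
        rw [mem_coe, mem_inter]
        exact ⟨mem_insert_self _ _, mem_inn.2 ⟨a, c, hac, rfl⟩⟩
      simp only at this ⊢
      omega
    · apply div_le_div_of_nonneg_right _ hp.le
      apply q_mono
      have := card_le_card hsub
      omega
  refine le_trans ?_ (sum_le_sum hlow)
  rw [sum_ite, sum_const, sum_const, filter_mem_eq_inter, inter_eq_right.2 hXsub]
  have h3 : (inn i \ s.1).filter (fun e => e ∉ X) = (inn i \ s.1) \ X := by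
    ext e; simp
  have hmc : #(inn i \ s.1) = m := rfl
  have hle : r * (N - r) ≤ m := by rw [← hXc, ← hmc]; exact card_le_card hXsub
  rw [h3, card_sdiff_of_subset hXsub, hXc, nsmul_eq_mul, nsmul_eq_mul, hmc, Nat.cast_sub hle]
  unfold gg
  rw [if_pos hi]
  obtain ⟨r', hr'⟩ : ∃ r', r = r' + 1 := ⟨r - 1, by omega⟩
  obtain ⟨m', hm'⟩ : ∃ m', m = m' + 1 := ⟨m - 1, by omega⟩
  have e1 := q_succ b r'
  have e2 := q_succ b m'
  have p1 := q_pos b r'
  have p2 := q_pos b m'
  have p3 := q_pos b (m' + 1)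
  rw [← hr, ← hN, ← hQ, ← hmdef]
  have hNr : ((N - r : ℕ) : ℝ) = N - r := by rw [Nat.cast_sub hrN]
  push_cast
  rw [hNr]
  have hrN' : (r : ℝ) ≤ N := by exact_mod_cast hrN
  rw [hr', hm', Nat.add_sub_cancel, Nat.add_sub_cancel]
  rw [hr'] at hrN'
  push_cast at hrN' ⊢
  set x := q b r'
  set y := q b (r' + 1)
  set u := q b m'
  set v := q b (m' + 1)
  -- e1 : y * (r'+1) = x * (r'+1+b), e2 : v * (m'+1) = u * (m'+1+b)
  have hy : y = x * (r' + 1 + b) / (r' + 1) := by rw [eq_div_iff (by positivity)]; exact e1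
  have hv : v = u * (m' + 1 + b) / (m' + 1) := by rw [eq_div_iff (by positivity)]; exact e2
  rw [hy, hv]
  have key : ((m' : ℝ) + 1 + b * (1 + N - (r' + 1))) * (m' + 1) ≤
      ((m' : ℝ) + 1 + b * (N - (r' + 1))) * (m' + 1 + b) := by
    have hz : 0 ≤ (N : ℝ) - (r' + 1) := by linarith
    have hb0 : (0 : ℝ) ≤ b := by positivity
    nlinarith [mul_nonneg (mul_nonneg hb0 hb0) hz]
  have e3 : ((m' : ℝ) + 1 + b * (1 + N - (r' + 1))) * (x / (u * (m' + 1 + b) / (m' + 1) * Q)) =
      x / (u * Q * (m' + 1 + b)) * (((m' : ℝ) + 1 + b * (1 + N - (r' + 1))) * (m' + 1)) := by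
    field_simp
  have e4 : ((r' : ℝ) + 1) * (N - (r' + 1)) * (x * (r' + 1 + b) / (r' + 1) / (u * Q)) +
      ((m' : ℝ) + 1 - (r' + 1) * (N - (r' + 1))) * (x / (u * Q)) =
      x / (u * Q * (m' + 1 + b)) * (((m' : ℝ) + 1 + b * (N - (r' + 1))) * (m' + 1 + b)) := by
    field_simp
    ring
  rw [e3, e4]
  apply mul_le_mul_of_nonneg_left key
  positivity

lemma clusters_card (a0 : κ) (s : Conf (Option (ι × κ))) (i : ι) :
    (#((warm s).filter fun C => ∃ a, some (i, a) ∈ C) : ℝ) ≤ 1 + Fintype.card κ - #(rc a0 i s) := by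
  classical
  have h1 : ((warm s).filter fun C => ∃ a, some (i, a) ∈ C) ⊆
      insert (cluster s (some (i, a0))) (((rc a0 i s)ᶜ).image fun a => cluster s (some (i, a))) := by
    intro C hC
    rw [mem_filter] at hC
    obtain ⟨hC, a, ha⟩ := hC
    obtain ⟨⟨w, rfl⟩, _⟩ := mem_warm.1 hC
    rw [cluster_eq ha, mem_insert]
    by_cases h : a ∈ rc a0 i s
    · left
      unfold rc at h
      simp only [mem_filter, mem_univ, true_and] at h
      symm
      apply cluster_eq
      unfold cluster
      simp only [mem_filter, mem_univ, true_and]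
      refine h.mono ?_
      apply SimpleGraph.fromEdgeSet_mono
      exact_mod_cast inter_subset_left
    · right
      rw [mem_image]
      exact ⟨a, by rw [mem_compl]; exact h, rfl⟩
  have h2 := (card_le_card h1).trans (card_insert_le _ _)
  have h3 := card_image_le (s := (rc a0 i s)ᶜ) (f := fun a => cluster s (some (i, a)))
  rw [card_compl] at h3
  have h4 := rc_le a0 i s
  have h5 : #((warm s).filter fun C => ∃ a, some (i, a) ∈ C) ≤ Fintype.card κ - #(rc a0 i s) + 1 := by omega
  have h6 : ((#((warm s).filter fun C => ∃ a, some (i, a) ∈ C) : ℕ) : ℝ) ≤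
      ((Fintype.card κ - #(rc a0 i s) + 1 : ℕ) : ℝ) := by exact_mod_cast h5
  rw [Nat.cast_add, Nat.cast_sub h4] at h6
  push_cast at h6
  linarith

/-- Generator bound for one blob. -/
lemma gg_gen (b : ℕ) (a0 : κ) {s : Conf (Option (ι × κ))} (hc : ¬ comp s) (i : ι) :
    -(hb s * gg b a0 i s) ≤
    ∑ e ∈ openable (windmill ι κ) s, (gg b a0 i (insert e s.1, s.2) - gg b a0 i s) +
      b * ∑ C ∈ warm s, (gg b a0 i (s.1, s.2 ∪ C) - gg b a0 i s) := by
  classical
  set g := gg b a0 i s with hg
  have hg0 : 0 ≤ g := gg_nonneg b a0 i s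
  by_cases hi : alive i s
  · have hopen : (mm i s : ℝ) * g + b * (1 + Fintype.card κ - #(rc a0 i s)) * g - mm i s * g - hb s * g ≤
        ∑ e ∈ openable (windmill ι κ) s, (gg b a0 i (insert e s.1, s.2) - g) := by
      rw [← sum_filter_add_sum_filter_not _ (· ∈ inn i), openable_inn hi.1, sum_sub_distrib, sum_const,
        nsmul_eq_mul]
      have h1 := inner_sum b a0 hi (mm_pos hc i)
      have h2 : -(hb s * g) ≤ ∑ e ∈ (openable (windmill ι κ) s).filter (fun x => ¬ x ∈ inn i),
          (gg b a0 i (insert e s.1, s.2) - g) := by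
        set Y : Finset (Sym2 (Option (ι × κ))) := univ.image (fun a : κ => s(none, some (i, a))) with hY
        have h3 : ∀ e ∈ (openable (windmill ι κ) s).filter (fun x => ¬ x ∈ inn i),
            (if e ∈ Y then -g else 0) ≤ gg b a0 i (insert e s.1, s.2) - g := by
          intro e he
          rw [mem_filter] at he
          split_ifs with h
          · have := gg_nonneg b a0 i (insert e s.1, s.2)
            linarith
          · rw [gg_open_other he.2 (fun a h' => h (by
              rw [hY, mem_image]; exact ⟨a, mem_univ _, h'.symm⟩))]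
            linarith
        refine le_trans ?_ (sum_le_sum h3)
        rw [sum_ite, sum_const, sum_const_zero, add_zero, nsmul_eq_mul]
        have h4 : ((#(((openable (windmill ι κ) s).filter (fun x => ¬ x ∈ inn i)).filter (· ∈ Y)) : ℕ) : ℝ) ≤ hb s := by
          unfold hb
          split_ifs with hn
          · have : ((openable (windmill ι κ) s).filter (fun x => ¬ x ∈ inn i)).filter (· ∈ Y) = ∅ := by
              rw [eq_empty_iff_forall_notMem]
              intro e he
              rw [mem_filter, mem_filter, mem_openable] at he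
              obtain ⟨⟨⟨_, _, h5⟩, _⟩, h6⟩ := he
              rw [hY, mem_image] at h6
              obtain ⟨a, _, rfl⟩ := h6
              exact h5 none (Sym2.mem_mk_left _ _) hn
            rw [this]
            simp
          · have h5 : #(((openable (windmill ι κ) s).filter (fun x => ¬ x ∈ inn i)).filter (· ∈ Y)) ≤ #Y :=
              card_le_card fun e he => (mem_filter.1 he).2
            have h6 : #Y ≤ Fintype.card κ := card_image_le
            exact_mod_cast h5.trans h6
        have := mul_le_mul_of_nonneg_right h4 hg0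
        linarith
      have h3 : (#(inn i \ s.1) : ℝ) = mm i s := rfl
      rw [h3]
      linarith
    have hfr : -((1 + Fintype.card κ - #(rc a0 i s)) * g) ≤ ∑ C ∈ warm s, (gg b a0 i (s.1, s.2 ∪ C) - g) := by
      have h1 : ∀ C ∈ warm s, (if ∃ a, some (i, a) ∈ C then -g else 0) ≤ gg b a0 i (s.1, s.2 ∪ C) - g := by
        intro C _
        split_ifs with h
        · have := gg_nonneg b a0 i (s.1, s.2 ∪ C)
          linarith
        · push Not at h
          rw [gg_freeze_other h]
          linarith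
      refine le_trans ?_ (sum_le_sum h1)
      rw [sum_ite, sum_const, sum_const_zero, add_zero, nsmul_eq_mul]
      have := mul_le_mul_of_nonneg_right (clusters_card a0 s i) hg0
      linarith
    have := mul_le_mul_of_nonneg_left hfr (show (0 : ℝ) ≤ b by positivity)
    linarith
  · have h0 : g = 0 := gg_dead hi
    rw [h0]
    have h1 : ∀ e ∈ openable (windmill ι κ) s, gg b a0 i (insert e s.1, s.2) - 0 = 0 := by
      intro e _
      rw [gg_dead (fun h => hi (alive_open e h)), sub_zero]
    have h2 : ∀ C ∈ warm s, gg b a0 i (s.1, s.2 ∪ C) - 0 = 0 := by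
      intro C _
      rw [gg_dead (fun h => hi ((alive_freeze C).1 h).1), sub_zero]
    rw [sum_congr rfl h1, sum_congr rfl h2]
    simp

/-- product over the blobs -/
noncomputable def GG (b : ℕ) (a0 : κ) (c : ℝ) (s : Conf (Option (ι × κ))) : ℝ :=
  ∏ i : ι, (1 - c * gg b a0 i s)

noncomputable def PP (b : ℕ) (a0 : κ) (c : ℝ) (i : ι) (s : Conf (Option (ι × κ))) : ℝ :=
  ∏ j ∈ univ.erase i, (1 - c * gg b a0 j s)

lemma fac_nonneg (b : ℕ) (a0 : κ) {c : ℝ} (hc0 : 0 ≤ c) (hc1 : c ≤ 1) (i : ι) (s : Conf (Option (ι × κ))) :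
    0 ≤ 1 - c * gg b a0 i s := by
  have h1 := gg_nonneg b a0 i s
  have h2 := gg_le_one b a0 i s
  nlinarith

lemma PP_nonneg (b : ℕ) (a0 : κ) {c : ℝ} (hc0 : 0 ≤ c) (hc1 : c ≤ 1) (i : ι) (s : Conf (Option (ι × κ))) :
    0 ≤ PP b a0 c i s := prod_nonneg fun j _ => fac_nonneg b a0 hc0 hc1 j s

lemma GG_nonneg (b : ℕ) (a0 : κ) {c : ℝ} (hc0 : 0 ≤ c) (hc1 : c ≤ 1) (s : Conf (Option (ι × κ))) :
    0 ≤ GG b a0 c s := prod_nonneg fun j _ => fac_nonneg b a0 hc0 hc1 j s

lemma GG_le_one (b : ℕ) (a0 : κ) {c : ℝ} (hc0 : 0 ≤ c) (hc1 : c ≤ 1) (s : Conf (Option (ι × κ))) :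
    GG b a0 c s ≤ 1 := by
  refine prod_le_one (fun j _ => fac_nonneg b a0 hc0 hc1 j s) fun j _ => ?_
  have := mul_nonneg hc0 (gg_nonneg b a0 j s)
  linarith

lemma prod_diff_single {x y : ι → ℝ} (h : (∀ j, x j = y j) ∨ ∃ i0, ∀ j, j ≠ i0 → x j = y j) :
    ∏ i, x i - ∏ i, y i = ∑ i, (x i - y i) * ∏ j ∈ univ.erase i, y j := by
  rcases h with h | ⟨i0, h⟩
  · have : x = y := funext h
    rw [this]
    simp
  · rw [sum_eq_single i0]
    · rw [← mul_prod_erase univ x (mem_univ i0), ← mul_prod_erase univ y (mem_univ i0), sub_mul]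
      congr 2
      exact prod_congr rfl fun j hj => h j (ne_of_mem_erase hj)
    · intro j _ hj
      rw [h j hj]
      ring
    · simp

lemma prod_diff_ge (S : Finset ι) {x y : ι → ℝ} (h0 : ∀ i, 0 ≤ y i) (h1 : ∀ i, y i ≤ x i) :
    ∑ i ∈ S, (x i - y i) * ∏ j ∈ S.erase i, y j ≤ ∏ i ∈ S, x i - ∏ i ∈ S, y i := by
  induction S using Finset.induction_on with
  | empty => simp
  | insert a S ha ih =>
    rw [sum_insert ha, prod_insert ha, prod_insert ha, erase_insert ha]
    have h2 : ∀ i ∈ S, (x i - y i) * ∏ j ∈ (insert a S).erase i, y j =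
        y a * ((x i - y i) * ∏ j ∈ S.erase i, y j) := by
      intro i hi
      have hne : a ≠ i := by rintro rfl; exact ha hi
      rw [erase_insert_of_ne hne, prod_insert (fun h => ha (mem_of_mem_erase h))]
      ring
    rw [sum_congr rfl h2, ← mul_sum]
    have h3 : ∏ i ∈ S, y i ≤ ∏ i ∈ S, x i := prod_le_prod (fun i _ => h0 i) fun i _ => h1 i
    have h4 := mul_le_mul_of_nonneg_left ih (h0 a)
    have h5 := mul_le_mul_of_nonneg_left h3 (sub_nonneg.2 (h1 a))
    nlinarith

lemma move_open (b : ℕ) (a0 : κ) {s : Conf (Option (ι × κ))} {e : Sym2 (Option (ι × κ))}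
    (he : e ∈ openable (windmill ι κ) s) :
    ∃ i0 : ι, ∀ j, j ≠ i0 → gg b a0 j (insert e s.1, s.2) = gg b a0 j s := by
  rcases edge_cases (mem_openable.1 he).1 with ⟨i, a, rfl⟩ | ⟨i, hi⟩
  · refine ⟨i, fun j hj => gg_open_other none_not_inn fun c h => hj (he_inj h).1.symm⟩
  · refine ⟨i, fun j hj => gg_open_other (fun h => hj (inn_disj h hi)) fun c h => ?_⟩
    rw [h] at hi
    exact none_not_inn hi

lemma move_freeze (b : ℕ) (a0 : κ) {s : Conf (Option (ι × κ))} (hs : Inv (windmill ι κ) s)
    {C : Finset (Option (ι × κ))} (hC : C ∈ warm s) :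
    (∀ j : ι, gg b a0 j (s.1, s.2 ∪ C) = gg b a0 j s) ∨
      ∃ i0 : ι, ∀ j, j ≠ i0 → gg b a0 j (s.1, s.2 ∪ C) = gg b a0 j s := by
  by_cases h : ∃ i, alive i s ∧ ∃ a, some (i, a) ∈ C
  · right
    obtain ⟨i, hi, a, ha⟩ := h
    refine ⟨i, fun j hj => gg_freeze_other fun c hc => ?_⟩
    obtain ⟨d, hd⟩ := alive_cluster hs hi hC ha _ hc
    simp only [Option.some.injEq, Prod.mk.injEq] at hd
    exact hj hd.1
  · left
    push Not at h
    intro j
    by_cases hj : alive j s
    · exact gg_freeze_other (h j hj)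
    · rw [gg_dead hj, gg_dead (fun h' => hj ((alive_freeze C).1 h').1)]

/-- freezing the cluster of the hub does not change the alive blobs -/
lemma hub_freeze (b : ℕ) (a0 : κ) {s : Conf (Option (ι × κ))} (hs : Inv (windmill ι κ) s)
    (hn : none ∉ s.2) (j : ι) : gg b a0 j (s.1, s.2 ∪ cluster s none) = gg b a0 j s := by
  by_cases hj : alive j s
  · refine gg_freeze_other fun a ha => ?_
    obtain ⟨d, hd⟩ := alive_cluster hs hj (warm_cluster hs hn) ha none (cluster_nonempty s none)
    simp at hd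
  · rw [gg_dead hj, gg_dead (fun h' => hj ((alive_freeze _).1 h').1)]

/-- Generator bound for the product. -/
lemma GG_gen (b : ℕ) (a0 : κ) {c : ℝ} (hc0 : 0 ≤ c) (hc1 : c ≤ 1) {s : Conf (Option (ι × κ))}
    (hs : Inv (windmill ι κ) s) (hc : ¬ comp s) :
    ∑ e ∈ openable (windmill ι κ) s, (GG b a0 c (insert e s.1, s.2) - GG b a0 c s) +
      b * ∑ C ∈ warm s, (GG b a0 c (s.1, s.2 ∪ C) - GG b a0 c s) ≤
    hb s * ∑ i : ι, c * gg b a0 i s * PP b a0 c i s := by
  have h1 : ∀ e ∈ openable (windmill ι κ) s, GG b a0 c (insert e s.1, s.2) - GG b a0 c s =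
      ∑ i : ι, (-c * PP b a0 c i s) * (gg b a0 i (insert e s.1, s.2) - gg b a0 i s) := by
    intro e he
    unfold GG
    obtain ⟨i0, hi0⟩ := move_open b a0 he
    rw [prod_diff_single (Or.inr ⟨i0, fun j hj => by rw [hi0 j hj]⟩)]
    refine sum_congr rfl fun i _ => ?_
    unfold PP
    ring
  have h2 : ∀ C ∈ warm s, GG b a0 c (s.1, s.2 ∪ C) - GG b a0 c s =
      ∑ i : ι, (-c * PP b a0 c i s) * (gg b a0 i (s.1, s.2 ∪ C) - gg b a0 i s) := by
    intro C hC
    unfold GG
    rw [prod_diff_single ((move_freeze b a0 hs hC).imp (fun h j => by rw [h j])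
      fun ⟨i0, h⟩ => ⟨i0, fun j hj => by rw [h j hj]⟩)]
    refine sum_congr rfl fun i _ => ?_
    unfold PP
    ring
  rw [sum_congr rfl h1, sum_congr rfl h2, sum_comm, sum_comm (s := warm s)]
  simp_rw [← mul_sum]
  rw [mul_sum, mul_sum, ← sum_add_distrib]
  refine sum_le_sum fun i _ => ?_
  have h3 := gg_gen b a0 hc i
  have h4 := mul_le_mul_of_nonneg_left h3 (mul_nonneg hc0 (PP_nonneg b a0 hc0 hc1 i s))
  nlinarith

lemma GG_half (b : ℕ) (a0 : κ) {c : ℝ} (hc0 : 0 ≤ c) (hc1 : c ≤ 1) (s : Conf (Option (ι × κ))) :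
    ∑ i : ι, c * gg b a0 i s * PP b a0 c i s ≤ 2 * (GG b a0 (c / 2) s - GG b a0 c s) := by
  have h := prod_diff_ge (univ : Finset ι) (x := fun i => 1 - c / 2 * gg b a0 i s)
    (y := fun i => 1 - c * gg b a0 i s) (fun i => fac_nonneg b a0 hc0 hc1 i s) (fun i => by
      have := mul_nonneg hc0 (gg_nonneg b a0 i s)
      linarith)
  unfold GG
  refine le_trans (le_of_eq ?_) (mul_le_mul_of_nonneg_left h (by norm_num))
  rw [mul_sum]
  refine sum_congr rfl fun i _ => ?_
  unfold PP
  ring

lemma abel (N b r : ℝ) (h : (2 * N + b) * r = 2 * N) (A : ℕ → ℝ) (n : ℕ) :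
    ∑ l ∈ range n, (1 - r) * r ^ l * (2 * N * (A (l + 1) - A l)) +
      b * (A 0 - ∑ l ∈ range n, (1 - r) * r ^ l * A l) = b * r ^ n * A n := by
  induction n with
  | zero => simp
  | succ n ih =>
    rw [sum_range_succ, sum_range_succ]
    have h2 : 2 * N * (1 - r) = b * r := by linarith
    have : (1 - r) * r ^ n * (2 * N * (A (n + 1) - A n)) + b * (- ((1 - r) * r ^ n * A n)) =
        b * r ^ (n + 1) * A (n + 1) - b * r ^ n * A n := by
      have h3 : (1 - r) * r ^ n * (2 * N * (A (n + 1) - A n)) = (2 * N * (1 - r)) * (r ^ n * (A (n + 1) - A n)) := by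
        ring
      rw [h3, h2]
      ring
    linarith

/-- mixture for a warm hub -/
noncomputable def Phi (b : ℕ) (a0 : κ) (r : ℝ) (n : ℕ) (s : Conf (Option (ι × κ))) : ℝ :=
  ∑ l ∈ range n, (1 - r) * r ^ l * GG b a0 (1 / 2 ^ l) s + r ^ n

open Classical in
/-- the superharmonic function for the complement -/
noncomputable def F2 (b : ℕ) (a0 : κ) (r : ℝ) (n : ℕ) (s : Conf (Option (ι × κ))) : ℝ :=
  if comp s then 0 else if none ∈ s.2 then GG b a0 1 s else Phi b a0 r n s

lemma half_pow (l : ℕ) : (0 : ℝ) ≤ 1 / 2 ^ l ∧ (1 : ℝ) / 2 ^ l ≤ 1 := by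
  refine ⟨by positivity, ?_⟩
  rw [div_le_one (by positivity)]
  exact one_le_pow₀ (by norm_num)

lemma Phi_nonneg (b : ℕ) (a0 : κ) {r : ℝ} (hr0 : 0 ≤ r) (hr1 : r ≤ 1) (n : ℕ)
    (s : Conf (Option (ι × κ))) : 0 ≤ Phi b a0 r n s := by
  unfold Phi
  refine add_nonneg (sum_nonneg fun l _ => ?_) (pow_nonneg hr0 n)
  exact mul_nonneg (mul_nonneg (by linarith) (pow_nonneg hr0 l)) (GG_nonneg b a0 (half_pow l).1 (half_pow l).2 s)

lemma F2_nonneg (b : ℕ) (a0 : κ) {r : ℝ} (hr0 : 0 ≤ r) (hr1 : r ≤ 1) (n : ℕ)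
    (s : Conf (Option (ι × κ))) : 0 ≤ F2 b a0 r n s := by
  unfold F2
  split_ifs
  · exact le_refl _
  · exact GG_nonneg b a0 (by norm_num) (by norm_num) s
  · exact Phi_nonneg b a0 hr0 hr1 n s

lemma F2_super (b : ℕ) (a0 : κ) {r : ℝ} (hr0 : 0 ≤ r) (hr1 : r ≤ 1)
    (hr : (2 * (Fintype.card κ : ℝ) + b) * r = 2 * Fintype.card κ) (n : ℕ)
    {s : Conf (Option (ι × κ))} (hs : Inv (windmill ι κ) s) :
    Mv (windmill ι κ) (b : ℝ≥0) (F2 b a0 r n) s ≤ R (windmill ι κ) (b : ℝ≥0) s * F2 b a0 r n s := by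
  classical
  set O := openable (windmill ι κ) s with hO
  have hRr : R (windmill ι κ) (b : ℝ≥0) s = #O + #(warm s) * b := by unfold R; simp [hO]
  have hMr : Mv (windmill ι κ) (b : ℝ≥0) (F2 b a0 r n) s =
      ∑ e ∈ O, F2 b a0 r n (insert e s.1, s.2) + b * ∑ C ∈ warm s, F2 b a0 r n (s.1, s.2 ∪ C) := by
    unfold Mv; simp [hO]
  rw [hRr, hMr]
  have hb0 : (0 : ℝ) ≤ b := by positivity
  by_cases hc : comp s
  · have h1 : F2 b a0 r n s = 0 := by unfold F2; rw [if_pos hc]
    have h2 : ∀ e ∈ O, F2 b a0 r n (insert e s.1, s.2) = 0 := by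
      intro e _
      unfold F2
      rw [if_pos (comp_open e hc)]
    have h3 : ∀ C ∈ warm s, F2 b a0 r n (s.1, s.2 ∪ C) = 0 := by
      intro C _
      unfold F2
      rw [if_pos (show comp ((s.1, s.2 ∪ C) : Conf _) from hc)]
    rw [sum_congr rfl h2, sum_congr rfl h3, h1]
    simp
  · by_cases hn : none ∈ s.2
    · have h1 : F2 b a0 r n s = GG b a0 1 s := by unfold F2; rw [if_neg hc, if_pos hn]
      have h2 : ∀ e ∈ O, F2 b a0 r n (insert e s.1, s.2) ≤ GG b a0 1 (insert e s.1, s.2) := by
        intro e _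
        unfold F2
        rw [if_pos (show none ∈ s.2 from hn)]
        split_ifs
        · exact GG_nonneg b a0 (by norm_num) (by norm_num) _
        · exact le_refl _
      have h3 : ∀ C ∈ warm s, F2 b a0 r n (s.1, s.2 ∪ C) ≤ GG b a0 1 (s.1, s.2 ∪ C) := by
        intro C _
        unfold F2
        rw [if_neg (show ¬ comp ((s.1, s.2 ∪ C) : Conf _) from hc), if_pos (mem_union_left _ hn)]
      have h4 := GG_gen b a0 (c := 1) (by norm_num) (by norm_num) hs hc
      have h5 : hb s = 0 := by unfold hb; rw [if_pos hn]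
      rw [h5, zero_mul, sum_sub_distrib, sum_sub_distrib, sum_const, sum_const, nsmul_eq_mul,
        nsmul_eq_mul] at h4
      have h6 := sum_le_sum h2
      have h7 := mul_le_mul_of_nonneg_left (sum_le_sum h3) hb0
      rw [h1]
      linarith
    · have h1 : F2 b a0 r n s = Phi b a0 r n s := by unfold F2; rw [if_neg hc, if_neg hn]
      have h2 : ∀ e ∈ O, F2 b a0 r n (insert e s.1, s.2) ≤ Phi b a0 r n (insert e s.1, s.2) := by
        intro e _
        unfold F2
        rw [if_neg (show none ∉ s.2 from hn)]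
        split_ifs
        · exact Phi_nonneg b a0 hr0 hr1 n _
        · exact le_refl _
      have hW := warm_cluster hs hn
      have h3 : ∀ C ∈ (warm s).erase (cluster s none), F2 b a0 r n (s.1, s.2 ∪ C) ≤
          Phi b a0 r n (s.1, s.2 ∪ C) := by
        intro C hC
        rw [mem_erase] at hC
        have hnC : none ∉ C := by
          intro h
          obtain ⟨⟨w, rfl⟩, _⟩ := mem_warm.1 hC.2
          exact hC.1 (cluster_eq h)
        unfold F2
        rw [if_neg (show ¬ comp ((s.1, s.2 ∪ C) : Conf _) from hc), if_neg (by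
          simp only [mem_union, not_or]; exact ⟨hn, hnC⟩)]
      have hGh : ∀ c, GG b a0 c (s.1, s.2 ∪ cluster s none) = GG b a0 c s := by
        intro c
        unfold GG
        exact prod_congr rfl fun j _ => by rw [hub_freeze b a0 hs hn j]
      have h4 : F2 b a0 r n (s.1, s.2 ∪ cluster s none) = GG b a0 1 s := by
        unfold F2
        rw [if_neg (show ¬ comp ((s.1, s.2 ∪ cluster s none) : Conf _) from hc),
          if_pos (mem_union_right _ (cluster_nonempty s none)), hGh]
      have h5 : Phi b a0 r n (s.1, s.2 ∪ cluster s none) = Phi b a0 r n s := by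
        unfold Phi
        simp_rw [hGh]
      have h6 : ∑ C ∈ warm s, F2 b a0 r n (s.1, s.2 ∪ C) ≤
          ∑ C ∈ warm s, Phi b a0 r n (s.1, s.2 ∪ C) - Phi b a0 r n s + GG b a0 1 s := by
        rw [← sum_erase_add _ _ hW, ← sum_erase_add (warm s) (fun C => Phi b a0 r n (s.1, s.2 ∪ C)) hW, h4, h5]
        have := sum_le_sum h3
        linarith
      -- generator of the mixture
      have h7 : ∑ e ∈ O, (Phi b a0 r n (insert e s.1, s.2) - Phi b a0 r n s) +
          b * ∑ C ∈ warm s, (Phi b a0 r n (s.1, s.2 ∪ C) - Phi b a0 r n s) =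
          ∑ l ∈ range n, (1 - r) * r ^ l *
            (∑ e ∈ O, (GG b a0 (1 / 2 ^ l) (insert e s.1, s.2) - GG b a0 (1 / 2 ^ l) s) +
            b * ∑ C ∈ warm s, (GG b a0 (1 / 2 ^ l) (s.1, s.2 ∪ C) - GG b a0 (1 / 2 ^ l) s)) := by
        unfold Phi
        simp_rw [add_sub_add_right_eq_sub, ← sum_sub_distrib]
        rw [sum_comm, sum_comm (s := warm s), mul_sum, ← sum_add_distrib]
        refine sum_congr rfl fun l _ => ?_
        simp_rw [← mul_sub, ← mul_sum]
        ring
      have h8 : ∑ e ∈ O, (Phi b a0 r n (insert e s.1, s.2) - Phi b a0 r n s) +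
          b * ∑ C ∈ warm s, (Phi b a0 r n (s.1, s.2 ∪ C) - Phi b a0 r n s) ≤
          ∑ l ∈ range n, (1 - r) * r ^ l *
            (2 * Fintype.card κ * (GG b a0 (1 / 2 ^ (l + 1)) s - GG b a0 (1 / 2 ^ l) s)) := by
        rw [h7]
        refine sum_le_sum fun l _ => ?_
        apply mul_le_mul_of_nonneg_left _ (mul_nonneg (by linarith) (pow_nonneg hr0 l))
        refine (GG_gen b a0 (half_pow l).1 (half_pow l).2 hs hc).trans ?_
        have h9 : hb s = Fintype.card κ := by unfold hb; rw [if_neg hn]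
        have h10 := GG_half b a0 (half_pow l).1 (half_pow l).2 s
        have h11 : (1 : ℝ) / 2 ^ l / 2 = 1 / 2 ^ (l + 1) := by
          rw [pow_succ, div_div]
        rw [h11] at h10
        rw [h9]
        have := mul_le_mul_of_nonneg_left h10 (show (0 : ℝ) ≤ Fintype.card κ by positivity)
        linarith
      have h12 := abel (Fintype.card κ) b r hr (fun l => GG b a0 (1 / 2 ^ l) s) n
      have h13 : b * r ^ n * GG b a0 (1 / 2 ^ n) s ≤ b * r ^ n * 1 :=
        mul_le_mul_of_nonneg_left (GG_le_one b a0 (half_pow n).1 (half_pow n).2 s)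
          (mul_nonneg hb0 (pow_nonneg hr0 n))
      have h14 : Phi b a0 r n s = ∑ l ∈ range n, (1 - r) * r ^ l * GG b a0 (1 / 2 ^ l) s + r ^ n := rfl
      simp only [pow_zero, div_one] at h12
      rw [sum_sub_distrib, sum_sub_distrib, sum_const, sum_const, nsmul_eq_mul, nsmul_eq_mul] at h8
      have h15 := sum_le_sum h2
      have h16 := mul_le_mul_of_nonneg_left h6 hb0
      rw [h1]
      have h17 : b * GG b a0 1 s = b * (GG b a0 1 s - ∑ l ∈ range n, (1 - r) * r ^ l * GG b a0 (1 / 2 ^ l) s) +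
          b * (Phi b a0 r n s - r ^ n) := by rw [h14]; ring
      nlinarith

end lower

/-! ### the two estimates for the law -/

/-- The increasing event: all internal edges of some blob are open. -/
def someBlob (ι κ : Type) : Set (Finset (Sym2 (Option (ι × κ)))) :=
  {ω | ∃ i : ι, ∀ a b : κ, a ≠ b → s(some (i, a), some (i, b)) ∈ ω}

lemma mem_someBlob {s : Conf (Option (ι × κ))} : s.1 ∈ someBlob ι κ ↔ comp s := by
  unfold someBlob comp
  simp only [Set.mem_ofPred_eq]
  constructor
  · rintro ⟨i, h⟩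
    refine ⟨i, fun e he => ?_⟩
    obtain ⟨a, b, hab, rfl⟩ := mem_inn.1 he
    exact h a b hab
  · rintro ⟨i, h⟩
    exact ⟨i, fun a b hab => h (mem_inn.2 ⟨a, b, hab, rfl⟩)⟩

open Classical in
lemma law_toReal (G : SimpleGraph V) (α : ℝ≥0) (A : Set (Finset (Sym2 V))) :
    ((law G α).toOuterMeasure A).toReal =
      Ex (it G α (Fintype.card V + Fintype.card (Sym2 V)) (∅, ∅)) fun s => if s.1 ∈ A then 1 else 0 := by
  unfold law
  rw [PMF.toOuterMeasure_map_apply, PMF.toOuterMeasure_apply_fintype]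
  change (∑ x, (Prod.fst ⁻¹' A).indicator (it G α (Fintype.card V + Fintype.card (Sym2 V)) (∅, ∅)) x).toReal = _
  rw [ENNReal.toReal_sum]
  · unfold Ex
    refine sum_congr rfl fun s _ => ?_
    by_cases h : s.1 ∈ A
    · rw [Set.indicator_of_mem (show s ∈ Prod.fst ⁻¹' A from h)]
      simp [h]
    · rw [Set.indicator_of_notMem (show s ∉ Prod.fst ⁻¹' A from h)]
      simp [h]
  · intro s _
    by_cases h : s.1 ∈ A
    · rw [Set.indicator_of_mem (show s ∈ Prod.fst ⁻¹' A from h)]
      exact PMF.apply_ne_top _ _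
    · rw [Set.indicator_of_notMem (show s ∉ Prod.fst ⁻¹' A from h)]
      simp

lemma inv_init (G : SimpleGraph V) : Inv G (∅, ∅) := by
  unfold Inv
  simp

lemma rank_init : rank ((∅, ∅) : Conf V) ≤ Fintype.card V + Fintype.card (Sym2 V) := by
  unfold rank
  simp only [compl_empty, card_univ]
  omega

lemma law_upper (K : ℕ) (hK : 0 < K) (hN : 0 < Fintype.card κ) :
    ((law (windmill ι κ) 1).toOuterMeasure (someBlob ι κ)).toReal ≤
      F1 K ((∅, ∅) : Conf (Option (ι × κ))) := by
  classical
  rw [law_toReal]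
  refine compare (windmill ι κ) 1 (Inv (windmill ι κ)) _ (F1 K) (fun s hs e he => inv_open hs he)
    (fun s hs C hC => inv_freeze hs hC) ?_ (fun s hs _ => F1_super K hK hN hs) _ _ (inv_init _) rank_init
  intro s hs _
  by_cases hc : comp s
  · rw [if_pos (mem_someBlob.2 hc)]
    unfold F1
    rw [if_pos hc]
  · rw [if_neg (fun h => hc (mem_someBlob.1 h))]
    unfold F1
    rw [if_neg hc]
    split_ifs
    · exact le_refl _
    · norm_num
    · exact add_nonneg (UU_nonneg _ _) (ZZ_bd _ _).1

lemma law_lower (b : ℕ) (hb : 0 < b) (a0 : κ) {r : ℝ} (hr0 : 0 ≤ r) (hr1 : r ≤ 1)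
    (hr : (2 * (Fintype.card κ : ℝ) + b) * r = 2 * Fintype.card κ) (n : ℕ) :
    1 - F2 b a0 r n ((∅, ∅) : Conf (Option (ι × κ))) ≤
      ((law (windmill ι κ) (b : ℝ≥0)).toOuterMeasure (someBlob ι κ)).toReal := by
  classical
  rw [law_toReal]
  have h1 : Ex (it (windmill ι κ) (b : ℝ≥0) (Fintype.card (Option (ι × κ)) +
      Fintype.card (Sym2 (Option (ι × κ)))) (∅, ∅)) (fun s => if s.1 ∈ someBlob ι κ then 0 else 1) ≤
      F2 b a0 r n ((∅, ∅) : Conf (Option (ι × κ))) := by
    refine compare (windmill ι κ) (b : ℝ≥0) (Inv (windmill ι κ)) _ (F2 b a0 r n)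
      (fun s hs e he => inv_open hs he) (fun s hs C hC => inv_freeze hs hC) ?_
      (fun s hs _ => F2_super b a0 hr0 hr1 hr n hs) _ _ (inv_init _) rank_init
    intro s hs hR
    by_cases hc : comp s
    · rw [if_pos (mem_someBlob.2 hc)]
      exact F2_nonneg b a0 hr0 hr1 n s
    · rw [if_neg (fun h => hc (mem_someBlob.1 h))]
      -- everything is frozen
      have hw : warm s = ∅ := by
        unfold R at hR
        have hbR : (0 : ℝ) < b := by exact_mod_cast hb
        have h2 : (#(warm s) : ℝ) * b = 0 := by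
          have h3 : (0 : ℝ) ≤ #(openable (windmill ι κ) s) := by positivity
          have h4 : (0 : ℝ) ≤ (#(warm s) : ℝ) * b := by positivity
          simp only [NNReal.coe_natCast] at hR
          linarith
        rcases mul_eq_zero.1 h2 with h | h
        · exact card_eq_zero.1 (by exact_mod_cast h)
        · linarith
      have hall : ∀ w, w ∈ s.2 := by
        intro w
        by_contra hw'
        have := warm_cluster hs hw'
        rw [hw] at this
        simp at this
      unfold F2
      rw [if_neg hc, if_pos (hall none)]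
      unfold GG
      apply le_of_eq
      symm
      refine prod_eq_one fun i _ => ?_
      rw [gg_dead (fun h => h.1 a0 (hall _))]
      simp
  have h2 : Ex (it (windmill ι κ) (b : ℝ≥0) (Fintype.card (Option (ι × κ)) +
      Fintype.card (Sym2 (Option (ι × κ)))) (∅, ∅)) (fun s => if s.1 ∈ someBlob ι κ then 0 else 1) +
      Ex (it (windmill ι κ) (b : ℝ≥0) (Fintype.card (Option (ι × κ)) +
      Fintype.card (Sym2 (Option (ι × κ)))) (∅, ∅)) (fun s => if s.1 ∈ someBlob ι κ then 1 else 0) = 1 := by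
    have h3 := Ex_sum_one (it (windmill ι κ) (b : ℝ≥0) (Fintype.card (Option (ι × κ)) +
      Fintype.card (Sym2 (Option (ι × κ)))) (∅, ∅))
    unfold Ex
    rw [← sum_add_distrib]
    refine Eq.trans (sum_congr rfl fun s _ => ?_) h3
    by_cases h : s.1 ∈ someBlob ι κ <;> simp [h]
  linarith

/-- Upper bound for the starting value. -/
lemma F1_init (K k N M : ℕ) (hK : 0 < K) (hk : Fintype.card ι = k) (hN : Fintype.card κ = N)
    (hM : N.choose 2 = M) (hN2 : 2 ≤ N) (hkK : k = 2 ^ K) (hMK : 32 * K ≤ M + 1) :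
    F1 K ((∅, ∅) : Conf (Option (ι × κ))) ≤ 1 / 16 + (1 + K) / N := by
  classical
  have hM0 : 0 < M := by rw [← hM]; exact Nat.choose_pos hN2
  have hc : ¬ comp ((∅, ∅) : Conf (Option (ι × κ))) := by
    rintro ⟨i, hi⟩
    have : #(inn (κ := κ) i) = 0 := by
      rw [card_eq_zero]
      exact subset_empty.1 hi
    rw [card_inn, hN, hM] at this
    omega
  unfold F1
  rw [if_neg hc, if_neg (by simp), hN]
  have hN0 : 0 < N := by omega
  have hNR : (0 : ℝ) < N := by exact_mod_cast hN0
  have hKR : (0 : ℝ) < K := by exact_mod_cast hK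
  refine add_le_add ?_ ?_
  · have hS : SS K ((∅, ∅) : Conf (Option (ι × κ))) = 2 ^ K * (q K M)⁻¹ := by
      unfold SS
      have : ∀ i : ι, ph K i ((∅, ∅) : Conf (Option (ι × κ))) = (q K M)⁻¹ := by
        intro i
        unfold ph
        rw [if_pos (show allw i ((∅, ∅) : Conf (Option (ι × κ))) from fun a => by simp)]
        unfold mm
        rw [sdiff_empty, card_inn, hN, hM]
      simp_rw [this]
      rw [sum_const, card_univ, hk, nsmul_eq_mul, hkK]
      push_cast
      rfl
    have hq : (32 : ℝ) ^ K ≤ q K M := by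
      have h1 := Nat.pow_le_choose (α := ℝ) K (M + K)
      have h2 : M + K + 1 - K = M + 1 := by omega
      rw [h2] at h1
      unfold q
      refine le_trans ?_ h1
      rw [le_div_iff₀ (by positivity)]
      have h3 : ((K.factorial : ℕ) : ℝ) ≤ (K : ℝ) ^ K := by exact_mod_cast Nat.factorial_le_pow K
      refine (mul_le_mul_of_nonneg_left h3 (by positivity)).trans ?_
      rw [← mul_pow]
      apply pow_le_pow_left₀ (by positivity)
      exact_mod_cast hMK
    have hS2 : SS K ((∅, ∅) : Conf (Option (ι × κ))) ≤ (1 / 16) ^ K := by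
      rw [hS, ← div_eq_mul_inv, div_le_iff₀ (q_pos K M)]
      calc (2 : ℝ) ^ K = (1 / 16) ^ K * 32 ^ K := by rw [← mul_pow]; norm_num
        _ ≤ (1 / 16) ^ K * q K M := mul_le_mul_of_nonneg_left hq (by positivity)
    unfold UU
    refine (Real.rpow_le_rpow (SS_nonneg _ _) hS2 (by positivity)).trans ?_
    rw [← Real.rpow_natCast, ← Real.rpow_mul (by norm_num)]
    have : (K : ℝ) * (1 / K) = 1 := by field_simp
    rw [this, Real.rpow_one]
  · have h1 : nal ((∅, ∅) : Conf (Option (ι × κ))) ≤ k := by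
      unfold nal
      rw [← hk]
      exact card_le_univ _
    refine (ZZ_mono N hN0 h1).trans ((ZZ_le N hN0 k).trans ?_)
    apply div_le_div_of_nonneg_right _ hNR.le
    have h2 := harmonic_le_one_add_log k
    refine h2.trans ?_
    rw [hkK]
    push_cast
    rw [Real.log_pow]
    have h3 : Real.log 2 ≤ 1 := by
      have := Real.log_two_lt_d9
      linarith
    have := mul_le_mul_of_nonneg_left h3 hKR.le
    linarith

lemma F2_init (b k N M L : ℕ) (a0 : κ) {r : ℝ} (hr0 : 0 ≤ r) (hr1 : r ≤ 1)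
    (hk : Fintype.card ι = k) (hN : Fintype.card κ = N)
    (hM : N.choose 2 = M) {p : ℝ} (hp : 0 ≤ p) (hpq : p * (q b M * q b (N - 1)) ≤ 1) :
    F2 b a0 r (L + 1) ((∅, ∅) : Conf (Option (ι × κ))) ≤ (1 - p / 2 ^ L) ^ k + r ^ (L + 1) := by
  classical
  have hgg : ∀ i : ι, p ≤ gg b a0 i ((∅, ∅) : Conf (Option (ι × κ))) := by
    intro i
    unfold gg
    rw [if_pos (show alive i ((∅, ∅) : Conf (Option (ι × κ))) from ⟨fun a => by simp, fun a => by simp⟩)]
    have h1 : mm i ((∅, ∅) : Conf (Option (ι × κ))) = M := by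
      unfold mm
      rw [sdiff_empty, card_inn, hN, hM]
    rw [h1, hN]
    have h2 : 1 ≤ q b (#(rc a0 i ((∅, ∅) : Conf (Option (ι × κ)))) - 1) := by
      rw [← q_zero b]; exact q_mono b (Nat.zero_le _)
    have h3 : 0 < q b M * q b (N - 1) := mul_pos (q_pos _ _) (q_pos _ _)
    rw [le_div_iff₀ h3]
    linarith
  have hGG : ∀ l, l ≤ L → GG b a0 (1 / 2 ^ l) ((∅, ∅) : Conf (Option (ι × κ))) ≤ (1 - p / 2 ^ L) ^ k := by
    intro l hl
    unfold GG
    rw [← hk, ← card_univ, ← prod_const]
    refine prod_le_prod (fun i _ => fac_nonneg b a0 (half_pow l).1 (half_pow l).2 i _) fun i _ => ?_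
    have h1 : (1 : ℝ) / 2 ^ L ≤ 1 / 2 ^ l := by
      apply one_div_le_one_div_of_le (by positivity)
      exact pow_le_pow_right₀ (by norm_num) hl
    have h2 := hgg i
    have h3 : p / 2 ^ L = 1 / 2 ^ L * p := by ring
    have h4 : 1 / 2 ^ L * p ≤ 1 / 2 ^ l * gg b a0 i ((∅, ∅) : Conf (Option (ι × κ))) :=
      mul_le_mul h1 h2 hp (half_pow l).1
    rw [h3]
    linarith
  have hsum : Phi b a0 r (L + 1) ((∅, ∅) : Conf (Option (ι × κ))) ≤ (1 - p / 2 ^ L) ^ k + r ^ (L + 1) := by
    unfold Phi
    refine add_le_add ?_ (le_refl _)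
    have h1 : ∀ l ∈ range (L + 1), (1 - r) * r ^ l * GG b a0 (1 / 2 ^ l) ((∅, ∅) : Conf (Option (ι × κ))) ≤
        (1 - r) * r ^ l * (1 - p / 2 ^ L) ^ k := by
      intro l hl
      exact mul_le_mul_of_nonneg_left (hGG l (by rw [mem_range] at hl; omega))
        (mul_nonneg (by linarith) (pow_nonneg hr0 l))
    refine (sum_le_sum h1).trans ?_
    rw [← sum_mul, ← mul_sum]
    have h2 : (1 - r) * ∑ l ∈ range (L + 1), r ^ l = 1 - r ^ (L + 1) := by
      have := geom_sum_mul_neg r (L + 1)
      linarith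
    rw [h2]
    have h3 : 0 ≤ (1 - p / 2 ^ L) ^ k := by
      have := hGG 0 (Nat.zero_le _)
      exact (GG_nonneg b a0 (half_pow 0).1 (half_pow 0).2 _).trans this
    have h4 : 0 ≤ r ^ (L + 1) := pow_nonneg hr0 _
    nlinarith
  unfold F2
  split_ifs
  · have h3 : 0 ≤ (1 - p / 2 ^ L) ^ k := by
      have := hGG 0 (Nat.zero_le _)
      exact (GG_nonneg b a0 (half_pow 0).1 (half_pow 0).2 _).trans this
    have h4 : 0 ≤ r ^ (L + 1) := pow_nonneg hr0 _
    linarith
  · rename_i h
    simp at h
  · exact hsum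

lemma numeric (k : ℕ) (x : ℝ) (hx1 : x ≤ 1) (hkx : 16 ≤ k * x) :
    (1 - x) ^ k ≤ 1 / 17 := by
  have h1 : (1 - x) ^ k ≤ Real.exp (-x) ^ k := by
    apply pow_le_pow_left₀ (by linarith)
    have := Real.add_one_le_exp (-x)
    linarith
  refine h1.trans ?_
  rw [← Real.exp_nat_mul]
  have h2 : Real.exp (k * -x) = (Real.exp (k * x))⁻¹ := by
    rw [← Real.exp_neg]; ring_nf
  rw [h2, one_div]
  apply inv_anti₀ (by norm_num)
  have := Real.add_one_le_exp (k * x)
  linarith

lemma prob_ne_top {S : Type} [Fintype S] (p : PMF S) (A : Set S) : p.toOuterMeasure A ≠ ∞ := by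
  rw [PMF.toOuterMeasure_apply_fintype]
  refine (ENNReal.sum_lt_top.2 fun a _ => ?_).ne
  by_cases h : a ∈ A
  · rw [Set.indicator_of_mem h]
    exact lt_of_le_of_lt (p.coe_le_one a) (by norm_num)
  · rw [Set.indicator_of_notMem h]
    norm_num

lemma upper_explicit {k N K : ℕ} (hK : K = 2724) (hk : k = 2 ^ K) (hN : N = 2 ^ 14) :
    (law (windmill (Fin k) (Fin N)) 1).toOuterMeasure (someBlob (Fin k) (Fin N)) < 1 / 4 := by
  have hN0 : 0 < Fintype.card (Fin N) := by rw [Fintype.card_fin, hN]; positivity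
  have h1 := law_upper (ι := Fin k) (κ := Fin N) K (by omega) hN0
  have h2 := F1_init (ι := Fin k) (κ := Fin N) K k N (2 ^ 13 * (2 ^ 14 - 1)) (by omega)
    (Fintype.card_fin k) (Fintype.card_fin N) (by rw [hN, Nat.choose_two_right]; norm_num)
    (by rw [hN]; norm_num) hk
    (by rw [hK]; norm_num)
  rw [← ENNReal.toReal_lt_toReal (prob_ne_top _ _) (by norm_num)]
  have h3 : ((1 : ℝ≥0∞) / 4).toReal = 1 / 4 := by simp
  rw [h3]
  refine lt_of_le_of_lt (h1.trans h2) ?_
  rw [hK, hN]
  norm_num

lemma pow_half (m : ℕ) (hm : 0 < m) : ((m : ℝ) / (m + 1)) ^ (m + 1) ≤ 1 / 2 := by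
  have hmR : (0 : ℝ) < m := by exact_mod_cast hm
  have h5 := one_add_mul_le_pow (a := (1 : ℝ) / m) (by
    have : 0 ≤ (1 : ℝ) / m := by positivity
    linarith) (m + 1)
  have h6 : ((m : ℝ) / (m + 1)) ^ (m + 1) * (1 + 1 / m) ^ (m + 1) = 1 := by
    rw [← mul_pow]
    have : (m : ℝ) / (m + 1) * (1 + 1 / m) = 1 := by field_simp
    rw [this, one_pow]
  have h7 : (2 : ℝ) ≤ (1 + 1 / m) ^ (m + 1) := by
    refine le_trans ?_ h5
    push_cast
    have : ((m : ℝ) + 1) * (1 / m) = 1 + 1 / m := by field_simp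
    rw [this]
    have : 0 ≤ (1 : ℝ) / m := by positivity
    linarith
  have h8 : 0 ≤ ((m : ℝ) / (m + 1)) ^ (m + 1) := by positivity
  have h9 := mul_le_mul_of_nonneg_left h7 h8
  rw [h6] at h9
  linarith

lemma lower_explicit {k N K L : ℕ} (hK : K = L + 676) (hL : L = 2048) (hk : k = 2 ^ K) (hN : N = 2 ^ 14) :
    2 / 5 < (law (windmill (Fin k) (Fin N)) 16).toOuterMeasure (someBlob (Fin k) (Fin N)) := by
  have hN0 : 0 < N := by rw [hN]; positivity
  have hL0 : 0 < L := by omega
  have hr0 : (0 : ℝ) ≤ (L : ℝ) / (L + 1) := by positivity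
  have hr1 : (L : ℝ) / (L + 1) ≤ 1 := by rw [div_le_one (by positivity)]; linarith
  have h1 := law_lower (ι := Fin k) (κ := Fin N) 16 (by norm_num) ⟨0, hN0⟩ hr0
    hr1 (by rw [Fintype.card_fin, hN, hL]; norm_num) (L + 1)
  have hq : q 16 (2 ^ 13 * (2 ^ 14 - 1)) * q 16 (N - 1) ≤ 2 ^ 672 := by
    have e1 : q 16 (2 ^ 13 * (2 ^ 14 - 1)) ≤ (2 ^ 27) ^ 16 := by
      unfold q
      refine le_trans (b := ((2 ^ 13 * (2 ^ 14 - 1) + 16 : ℕ) : ℝ) ^ 16) ?_ ?_
      · exact_mod_cast Nat.choose_le_pow _ _
      · apply pow_le_pow_left₀ (by positivity)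
        norm_num
    have e2 : q 16 (N - 1) ≤ (2 ^ 15) ^ 16 := by
      unfold q
      refine le_trans (b := ((N - 1 + 16 : ℕ) : ℝ) ^ 16) ?_ ?_
      · exact_mod_cast Nat.choose_le_pow _ _
      · apply pow_le_pow_left₀ (by positivity)
        rw [hN]
        norm_num
    calc q 16 (2 ^ 13 * (2 ^ 14 - 1)) * q 16 (N - 1) ≤ (2 ^ 27) ^ 16 * (2 ^ 15) ^ 16 :=
          mul_le_mul e1 e2 (q_pos _ _).le (by positivity)
      _ = 2 ^ 672 := by rw [← pow_mul, ← pow_mul, ← pow_add]
  have h2 := F2_init (ι := Fin k) (κ := Fin N) 16 k N (2 ^ 13 * (2 ^ 14 - 1)) L ⟨0, hN0⟩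
    hr0 hr1
    (Fintype.card_fin k) (Fintype.card_fin N) (by rw [hN, Nat.choose_two_right]; norm_num)
    (p := 1 / 2 ^ 672) (by positivity) (by
      rw [div_mul_eq_mul_div, one_mul, div_le_one (by positivity)]
      exact hq)
  have h3 : (1 - (1 : ℝ) / 2 ^ 672 / 2 ^ L) ^ k ≤ 1 / 17 := by
    apply numeric
    · rw [div_div, div_le_one (by positivity), ← pow_add]
      exact one_le_pow₀ (by norm_num)
    · have h4 : (k : ℝ) = 2 ^ L * 2 ^ 672 * 16 := by
        rw [hk, hK, show L + 676 = L + 672 + 4 by ring]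
        push_cast
        rw [pow_add, pow_add]
        norm_num
      rw [h4]
      apply le_of_eq
      generalize (2 : ℝ) ^ 672 = y at *
      have hy : 0 < (2 : ℝ) ^ L := by positivity
      by_cases hy0 : y = 0
      · exfalso
        rw [hy0] at h4
        have : (0 : ℝ) < k := by rw [hk]; positivity
        rw [h4] at this
        simp at this
      field_simp
  have h4 := pow_half L hL0
  rw [← ENNReal.toReal_lt_toReal (by finiteness) (prob_ne_top _ _)]
  have h5 : ((2 : ℝ≥0∞) / 5).toReal = 2 / 5 := by simp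
  rw [h5]
  have h6 : ((16 : ℕ) : ℝ≥0) = 16 := by norm_num
  rw [h6] at h1
  refine lt_of_lt_of_le ?_ h1
  have h7 := h2.trans (add_le_add h3 h4)
  linarith

/-- **Theorem.** The final configuration of percolation with constant freezing is not stochastically
monotone in the freezing rate: for the windmill graph with `2^2724` blades `K_{2^14}` the increasing
event that all internal edges of some blade are open has probability less than `1/4` for the freezing
rate `1` and more than `2/5` for the freezing rate `16`. -/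
theorem result :
    IsUpperSet (someBlob (Fin (2 ^ 2724)) (Fin (2 ^ 14))) ∧
    (law (windmill (Fin (2 ^ 2724)) (Fin (2 ^ 14))) 1).toOuterMeasure
      (someBlob (Fin (2 ^ 2724)) (Fin (2 ^ 14))) < 1 / 4 ∧
    2 / 5 < (law (windmill (Fin (2 ^ 2724)) (Fin (2 ^ 14))) 16).toOuterMeasure
      (someBlob (Fin (2 ^ 2724)) (Fin (2 ^ 14))) := by
  refine ⟨?_, upper_explicit (K := 2724) rfl rfl rfl, lower_explicit (K := 2724) (L := 2048) rfl rfl rfl rfl⟩
  rintro ω ω' h ⟨i, hi⟩
  exact ⟨i, fun a b hab => h (hi a b hab)⟩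

end Pool.Agent.Results.MP_959d67_pr.NotMonotone
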